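import Mathlib
set_option autoImplicit false
namespace Pool.Agent.Helper554

open Matrix

section aux

open Matrix.SpecialLinearGroup
open scoped LinearAlgebra.Projectivization commutatorElement

variable {F : Type} [Field F]

theorem transv_comm {ι : Type} [Fintype ι] [DecidableEq ι] {i j k : ι} (hij : i ≠ j) (hik : i ≠ k)
    (hkj : k ≠ j) (b : F) :
    ⁅SpecialLinearGroup.transvection hik b, SpecialLinearGroup.transvection hkj 1⁆ =
      (SpecialLinearGroup.transvection hij b : SpecialLinearGroup ι F) := by
  rw [commutatorElement_def, SpecialLinearGroup.transvection_inv,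
    SpecialLinearGroup.transvection_inv]
  refine Subtype.ext ?_
  simp only [coe_mul, transvection_coe, mul_add, add_mul, one_mul, mul_one,
    Matrix.single_mul_single_same, Matrix.single_mul_single_of_ne _ _ _ _ hij.symm,
    Matrix.single_mul_single_of_ne _ _ _ _ hik.symm, Matrix.single_mul_single_of_ne _ _ _ _ hkj.symm,
    add_zero]
  ext k l
  simp only [Matrix.add_apply, Matrix.single_apply]
  split_ifs <;> ring

theorem diag_dec {ι : Type} [Fintype ι] [DecidableEq ι] {i j : ι} (hij : i ≠ j) (a : F)
    (ha : a ≠ 0) :
    diag2n hij a ha = SpecialLinearGroup.transvection hij a *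
      SpecialLinearGroup.transvection hij.symm (- a⁻¹) *
      SpecialLinearGroup.transvection hij a *
      SpecialLinearGroup.transvection hij (-1) *
      SpecialLinearGroup.transvection hij.symm 1 *
      SpecialLinearGroup.transvection hij (-1) := by
  refine Subtype.ext ?_
  simp only [coe_mul, transvection_coe, diag2n_coe, mul_add, add_mul, one_mul, mul_one,
    Matrix.single_mul_single_same, Matrix.single_mul_single_of_ne _ _ _ _ hij.symm,
    Matrix.single_mul_single_of_ne _ _ _ _ hij, 
    add_zero]
  ext k l
  simp only [Matrix.add_apply, Matrix.single_apply, Matrix.diagonal_apply, Matrix.one_apply]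
  by_cases h1 : k = i
  · subst h1
    by_cases h2 : k = l
    · subst h2
      simp [hij, hij.symm]
      field_simp
      ring
    · by_cases h3 : j = l
      · subst h3
        simp [hij, hij.symm]
        field_simp
        ring
      · simp [h2, h3, hij.symm, hij]
  · by_cases h2 : k = j
    · subst h2
      by_cases h3 : k = l
      · subst h3
        simp [hij, hij.symm, inv_mul_cancel₀ ha]
      · by_cases h4 : i = l
        · subst h4
          simp [hij, hij.symm, inv_mul_cancel₀ ha]
        · simp [h3, h4, hij.symm, hij]
    · simp [h1, h2, Ne.symm h1, Ne.symm h2]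

/-- A transvection `transvection i j hij b` lies in `lineStab (span F {Pi.single i 1})`. -/
lemma transv_mem {ι : Type} [Fintype ι] [DecidableEq ι] {i j : ι} (hij : i ≠ j) (b : F) :
    SpecialLinearGroup.transvection hij b ∈
      lineStab (Submodule.span F {(Pi.single i (1 : F) : ι → F)}) :=
  fun w ↦ Submodule.mem_span_singleton.2 ⟨b * w j, by simp [mul_smul,
    Matrix.SpecialLinearGroup.smul_def, transvection_coe, add_smul, Matrix.single_mulVec_eq]⟩

theorem SL3_transv (H : Subgroup (SpecialLinearGroup (Fin 3) F))
    (h : ∀ (i j : Fin 3) (hij : i ≠ j) (b : F), SpecialLinearGroup.transvection hij b ∈ H) :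
    H = ⊤ := by
  rw [eq_top_iff]
  intro M _
  refine diagonal_transvection_induction' (fun A => A ∈ H) M ?_ h (fun A B => H.mul_mem)
  intro i j hij c hc
  rw [diag_dec hij c hc]
  exact H.mul_mem (H.mul_mem (H.mul_mem (H.mul_mem (H.mul_mem (h _ _ _ _) (h _ _ _ _)) (h _ _ _ _))
    (h _ _ _ _)) (h _ _ _ _)) (h _ _ _ _)

end aux

/-- `SL(3, F)` is perfect for every field `F`. -/
theorem SL3_perfect (F : Type) [Field F] :
    commutator (SpecialLinearGroup (Fin 3) F) = ⊤ := by
  apply SL3_transv
  intro i j hij b
  obtain ⟨k, hik, hkj⟩ : ∃ k : Fin 3, i ≠ k ∧ k ≠ j := by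
    revert i j
    decide
  rw [← transv_comm hij hik hkj b]
  exact Subgroup.commutator_mem_commutator (Subgroup.mem_top _) (Subgroup.mem_top _)

section aux2

open Matrix.SpecialLinearGroup
open scoped LinearAlgebra.Projectivization commutatorElement

theorem iSup_lineStab3 (F : Type) [Field F] :
    (⨆ p : ℙ F (Fin 3 → F), lineStab p.submodule) =
      (⊤ : Subgroup (SpecialLinearGroup (Fin 3) F)) := by
  apply SL3_transv
  intro i j hij b
  have h1 := transv_mem (F := F) hij b
  rw [← Projectivization.submodule_mk (K := F) _ (Pi.single_ne_zero_iff.2 one_ne_zero)] at h1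
  exact (le_iSup (fun p : ℙ F (Fin 3 → F) => lineStab p.submodule) _) h1

open scoped Pointwise in
/-- The Iwasawa structure on SL(3, F). -/
noncomputable def iwa3 (F : Type) [Field F] :
    MulAction.IwasawaStructure (SpecialLinearGroup (Fin 3) F) (ℙ F (Fin 3 → F)) where
  T p := lineStab p.submodule
  is_comm p := by
    rw [← Projectivization.mk_rep p, Projectivization.submodule_mk]
    exact lineStab_isMulCommutative_of_span p.rep p.rep_nonzero
  is_conj g p := by
    rw [PSL.smul_submodule, Matrix.SpecialLinearGroup.lineStab_smul]
  is_generator := iSup_lineStab3 F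

end aux2

/-- Every normal subgroup of `SL(3, F)` is central or everything. -/
theorem SL3_normal (F : Type) [Field F] (N : Subgroup (SpecialLinearGroup (Fin 3) F)) [N.Normal] :
    N ≤ Subgroup.center (SpecialLinearGroup (Fin 3) F) ∨ N = ⊤ := by
  by_cases h : MulAction.fixedPoints N (Projectivization F (Fin 3 → F)) = Set.univ
  · left
    intro g hg
    rw [← Projectivization.SL_mulAction_ker, MonoidHom.mem_ker]
    ext x
    have hx : x ∈ MulAction.fixedPoints N (Projectivization F (Fin 3 → F)) := by rw [h]; exact Set.mem_univ x
    exact hx ⟨g, hg⟩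
  · right
    have h1 := (iwa3 F).commutator_le N h
    rw [SL3_perfect F] at h1
    exact top_le_iff.1 h1

end Pool.Agent.Helper554
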