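import Mathlib
set_option autoImplicit false
namespace Pool.Agent.Helper554

open Matrix
open scoped commutatorElement

/-- maps from a perfect group to a commutative group are trivial -/
theorem perfect_hom_trivial {E A : Type*} [Group E] [CommGroup A] (hE : commutator E = ⊤)
    (f : E →* A) (e : E) : f e = 1 := by
  have h1 : commutator E ≤ f.ker := Abelianization.commutator_subset_ker f
  rw [hE] at h1
  exact h1 (Subgroup.mem_top e)

theorem perfect_hom_trivial' {E A : Type*} [Group E] [Group A] (hE : commutator E = ⊤)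
    (f : E →* A) (hf : ∀ a b : E, f a * f b = f b * f a) (e : E) : f e = 1 := by
  have h1 : commutator E ≤ f.ker := by
    rw [commutator_def, Subgroup.commutator_le]
    intro a _ b _
    rw [MonoidHom.mem_ker, map_commutatorElement]
    exact commutatorElement_eq_one_iff_commute.2 (hf a b)
  rw [hE] at h1
  exact h1 (Subgroup.mem_top e)

/-- transfer step -/
theorem transfer_step {E : Type*} [Group E] [Finite E] (hE : commutator E = ⊤)
    (B : Subgroup E) (hB : ¬ 3 ∣ B.index) (z : E) (hz : z ∈ Subgroup.center E) (hz3 : z ^ 3 = 1)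
    (hzB : z ∈ B) : (⟨z, hzB⟩ : B) ∈ commutator B := by
  have hcomm : ∀ g : E, g * z = z * g := fun g => Subgroup.mem_center_iff.1 hz g
  have key : ∀ (k : ℕ) (g₀ : E), g₀⁻¹ * z ^ k * g₀ ∈ B → g₀⁻¹ * z ^ k * g₀ = z ^ k := by
    intro k g₀ _
    have : Commute g₀ (z ^ k) := (show Commute g₀ z from hcomm g₀).pow_right k
    rw [mul_assoc, ← this.eq, inv_mul_cancel_left]
  have : B.FiniteIndex := inferInstance
  have h1 := MonoidHom.transfer_eq_pow (Abelianization.of : B →* Abelianization B) z key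
  rw [perfect_hom_trivial hE (MonoidHom.transfer (Abelianization.of : B →* Abelianization B)) z] at h1
  have h2 : (⟨z ^ B.index, MonoidHom.transfer_eq_pow_aux z key⟩ : B) ∈ commutator B := by
    have : (⟨z ^ B.index, MonoidHom.transfer_eq_pow_aux z key⟩ : B)
        ∈ (Abelianization.of : B →* Abelianization B).ker := h1.symm
    rwa [Abelianization.ker_of] at this
  -- z = (z^index)^m
  have h3 : (⟨z ^ B.index, MonoidHom.transfer_eq_pow_aux z key⟩ : B) = (⟨z, hzB⟩ : B) ^ B.index := by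
    ext; simp
  rw [h3] at h2
  have hz3' : (⟨z, hzB⟩ : B) ^ 3 = 1 := by ext; simpa using hz3
  have h4 : B.index % 3 = 1 ∨ B.index % 3 = 2 := by omega
  set y : B := ⟨z, hzB⟩ with hy
  have h5 : y ^ B.index = y ^ (B.index % 3) := by
    conv_lhs => rw [← Nat.div_add_mod B.index 3, pow_add, pow_mul, hz3', one_pow, one_mul]
  rcases h4 with h4 | h4
  · rw [h5, h4, pow_one] at h2; exact h2
  · rw [h5, h4] at h2
    have h6 : y = (y ^ 2) ^ 2 := by
      rw [← pow_mul]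
      calc y = y ^ 3 * y := by rw [hz3', one_mul]
        _ = y ^ (2 * 2) := by rw [← pow_succ]
    rw [h6]; exact Subgroup.pow_mem _ h2 2

/-- abstract core -/
theorem abs_core {E L : Type*} [Group E] [Finite E] [Group L] (hE : commutator E = ⊤)
    (π : E →* L) (hπ : Function.Surjective π)
    (hcen : π.ker ≤ Subgroup.center E) (hcard : Nat.card π.ker = 3)
    (T B0 : Subgroup L) (w s t1 t2 : L)
    (hTB : T ≤ B0) (hw : w ∈ B0)
    (hBT : ∀ b ∈ B0, ∃ t ∈ T, ∃ k : ℕ, b = t * w ^ k)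
    (hTn : ∀ b ∈ B0, ∀ t ∈ T, b * t * b⁻¹ ∈ T)
    (ht12 : t1 * t2 = t2 * t1)
    (hTg : ∀ t ∈ T, ∃ i m : ℤ, t = t1 ^ i * t2 ^ m)
    (hs1 : s * t1 * s⁻¹ = t2⁻¹) (hs2 : s * t2 * s⁻¹ = t1⁻¹)
    (hsc : ∀ t ∈ T, t * w = w * t → t ∈ Subgroup.center L)
    (hidx : ¬ 3 ∣ B0.index) : False := by
  have hker_comm : ∀ z ∈ π.ker, ∀ g : E, g * z = z * g := fun z hz g =>
    Subgroup.mem_center_iff.1 (hcen hz) g
  have hker3 : ∀ z ∈ π.ker, z ^ 3 = 1 := by
    intro z hz
    have := pow_card_eq_one' (x := (⟨z, hz⟩ : π.ker))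
    rw [hcard] at this
    have h2 := congrArg (Subtype.val) this
    simpa using h2
  -- nontrivial element of kernel
  obtain ⟨z, hz, hz1⟩ : ∃ z ∈ π.ker, z ≠ 1 := by
    by_contra hcon
    push Not at hcon
    have : Nat.card π.ker = 1 := by
      rw [Nat.card_eq_one_iff_unique]
      refine ⟨⟨?_⟩, ⟨1⟩⟩
      rintro ⟨a, ha⟩ ⟨b, hb⟩
      apply Subtype.ext
      show a = b
      rw [hcon a ha, hcon b hb]
    omega
  -- lifts
  obtain ⟨W, hW⟩ := hπ w
  obtain ⟨S, hS⟩ := hπ s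
  obtain ⟨U1, hU1⟩ := hπ t1
  obtain ⟨U2, hU2⟩ := hπ t2
  -- lifts of t1 t2 commute
  have hc : U1 * U2 * U1⁻¹ * U2⁻¹ = 1 := by
    set c := U1 * U2 * U1⁻¹ * U2⁻¹ with hcdef
    have hcker : c ∈ π.ker := by
      rw [MonoidHom.mem_ker, hcdef]; simp only [map_mul, map_inv, hU1, hU2, ht12]; group
    have hck := hker_comm c hcker
    have hd1 : S * U1 * S⁻¹ * U2 ∈ π.ker := by
      rw [MonoidHom.mem_ker]; simp only [map_mul, map_inv, hU1, hU2, hS, hs1]; group
    have hd2 : S * U2 * S⁻¹ * U1 ∈ π.ker := by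
      rw [MonoidHom.mem_ker]; simp only [map_mul, map_inv, hU1, hU2, hS, hs2]; group
    have hk1 := hker_comm _ hd1
    have hk2 := hker_comm _ hd2
    set d1 := S * U1 * S⁻¹ * U2 with hd1def
    set d2 := S * U2 * S⁻¹ * U1 with hd2def
    have e1 : S * U1 * S⁻¹ = d1 * U2⁻¹ := by rw [hd1def]; group
    have e2 : S * U2 * S⁻¹ = d2 * U1⁻¹ := by rw [hd2def]; group
    have e3 : S * c * S⁻¹ = c := by rw [hck S]; group
    have e4 : S * c * S⁻¹ = (S * U1 * S⁻¹) * (S * U2 * S⁻¹) * (S * U1 * S⁻¹)⁻¹ * (S * U2 * S⁻¹)⁻¹ := by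
      rw [hcdef]; group
    rw [e1, e2, e3] at e4
    -- c = d1 U2⁻¹ d2 U1⁻¹ (d1 U2⁻¹)⁻¹ (d2 U1⁻¹)⁻¹
    have e5 : d1 * U2⁻¹ * (d2 * U1⁻¹) * (d1 * U2⁻¹)⁻¹ * (d2 * U1⁻¹)⁻¹
        = U2⁻¹ * U1⁻¹ * U2 * U1 := by
      have a1 : U2⁻¹ * d2 = d2 * U2⁻¹ := hk2 _
      have a2 : ∀ g : E, g * d1 = d1 * g := hk1
      have a3 : ∀ g : E, g * d1⁻¹ = d1⁻¹ * g := by
        intro g
        have := a2 g
        calc g * d1⁻¹ = d1⁻¹ * (d1 * g) * d1⁻¹ := by group
          _ = d1⁻¹ * (g * d1) * d1⁻¹ := by rw [this]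
          _ = d1⁻¹ * g := by group
      have a4 : ∀ g : E, g * d2⁻¹ = d2⁻¹ * g := by
        intro g
        have := hk2 g
        calc g * d2⁻¹ = d2⁻¹ * (d2 * g) * d2⁻¹ := by group
          _ = d2⁻¹ * (g * d2) * d2⁻¹ := by rw [this]
          _ = d2⁻¹ * g := by group
      calc d1 * U2⁻¹ * (d2 * U1⁻¹) * (d1 * U2⁻¹)⁻¹ * (d2 * U1⁻¹)⁻¹
          = d1 * (U2⁻¹ * d2) * U1⁻¹ * (U2 * d1⁻¹) * (U1 * d2⁻¹) := by group
        _ = d1 * (d2 * U2⁻¹) * U1⁻¹ * (d1⁻¹ * U2) * (d2⁻¹ * U1) := by rw [a1, a3 U2, a4 U1]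
        _ = d1 * d2 * (U2⁻¹ * U1⁻¹ * d1⁻¹) * U2 * d2⁻¹ * U1 := by group
        _ = d1 * d2 * (d1⁻¹ * (U2⁻¹ * U1⁻¹)) * U2 * d2⁻¹ * U1 := by rw [a3]
        _ = d1 * (d2 * d1⁻¹) * (U2⁻¹ * U1⁻¹ * U2 * d2⁻¹) * U1 := by group
        _ = d1 * (d1⁻¹ * d2) * (d2⁻¹ * (U2⁻¹ * U1⁻¹ * U2)) * U1 := by rw [a3, a4]
        _ = U2⁻¹ * U1⁻¹ * U2 * U1 := by group
    rw [e5] at e4
    -- U2⁻¹ U1⁻¹ U2 U1 = c⁻¹
    have e6 : U2⁻¹ * U1⁻¹ * U2 * U1 = c⁻¹ := by
      have b1 : U1 * U2 = c * (U2 * U1) := by rw [hcdef]; group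
      have b2 : U2 * U1 = c⁻¹ * (U1 * U2) := by rw [b1]; group
      calc U2⁻¹ * U1⁻¹ * U2 * U1 = (U1 * U2)⁻¹ * (U2 * U1) := by group
        _ = (U1 * U2)⁻¹ * (c⁻¹ * (U1 * U2)) := by rw [b2]
        _ = (U1 * U2)⁻¹ * ((U1 * U2) * c⁻¹) := by
            congr 1
            have := hck (U1 * U2)
            calc c⁻¹ * (U1 * U2) = c⁻¹ * ((U1 * U2) * c) * c⁻¹ := by group
              _ = c⁻¹ * (c * (U1 * U2)) * c⁻¹ := by rw [this]
              _ = (U1 * U2) * c⁻¹ := by group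
        _ = c⁻¹ := by group
    rw [e6] at e4
    have e7 : c * c = 1 := by
      nth_rewrite 2 [e4]; group
    have e8 := hker3 c hcker
    calc c = c ^ 3 * (c * c)⁻¹ := by group
      _ = 1 := by rw [e8, e7]; group
  have hU : Commute U1 U2 := by
    show U1 * U2 = U2 * U1
    calc U1 * U2 = (U1 * U2 * U1⁻¹ * U2⁻¹) * (U2 * U1) := by group
      _ = U2 * U1 := by rw [hc, one_mul]
  -- T~ elements
  have hTt : ∀ x : E, π x ∈ T → ∃ (i m : ℤ) (y : E), y ∈ π.ker ∧ x = U1 ^ i * U2 ^ m * y := by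
    intro x hx
    obtain ⟨i, m, him⟩ := hTg _ hx
    refine ⟨i, m, (U1 ^ i * U2 ^ m)⁻¹ * x, ?_, by group⟩
    rw [MonoidHom.mem_ker]
    simp only [map_mul, map_inv, map_zpow, hU1, hU2, him]
    group
  have hTab : ∀ x y : E, π x ∈ T → π y ∈ T → Commute x y := by
    intro x y hx hy
    obtain ⟨i, m, u, hu, rfl⟩ := hTt x hx
    obtain ⟨i', m', v, hv, rfl⟩ := hTt y hy
    have cu : ∀ g : E, Commute g u := fun g => hker_comm u hu g
    have cv : ∀ g : E, Commute g v := fun g => hker_comm v hv g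
    have c12 : Commute (U1 ^ i * U2 ^ m) (U1 ^ i' * U2 ^ m') := by
      have q1 : Commute (U1 ^ i) (U1 ^ i') := (Commute.refl U1).zpow_zpow i i'
      have q2 : Commute (U1 ^ i) (U2 ^ m') := hU.zpow_zpow i m'
      have q3 : Commute (U2 ^ m) (U1 ^ i') := (hU.symm).zpow_zpow m i'
      have q4 : Commute (U2 ^ m) (U2 ^ m') := (Commute.refl U2).zpow_zpow m m'
      exact (q1.mul_right q2).mul_left (q3.mul_right q4)
    exact (c12.mul_right (cv _)).mul_left ((cu _).symm)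
  -- the subgroup B
  set B : Subgroup E := B0.comap π with hB
  have hBidx : ¬ 3 ∣ B.index := by
    rw [hB, Subgroup.index_comap_of_surjective _ hπ]; exact hidx
  have hzB : z ∈ B := by
    show π z ∈ B0
    rw [MonoidHom.mem_ker.1 hz]; exact B0.one_mem
  have hstep := transfer_step hE B hBidx z (hcen hz) (hker3 z hz) hzB
  have hWB : W ∈ B := by show π W ∈ B0; rw [hW]; exact hw
  -- conj by B preserves T~
  have hconj : ∀ b ∈ B, ∀ t : E, π t ∈ T → π (b * t * b⁻¹) ∈ T := by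
    intro b hb t ht
    simp only [map_mul, map_inv]
    exact hTn _ hb _ ht
  -- the subgroup of commutators
  let N : Subgroup B :=
    { carrier := {x | ∃ t : E, π t ∈ T ∧ (x : E) = t * W * t⁻¹ * W⁻¹}
      one_mem' := ⟨1, by rw [map_one]; exact T.one_mem, by simp⟩
      mul_mem' := by
        rintro ⟨x, hx⟩ ⟨y, hy⟩ ⟨t, ht, hxt⟩ ⟨u, hu, hyu⟩
        refine ⟨u * t, by rw [map_mul]; exact T.mul_mem hu ht, ?_⟩
        simp only at hxt hyu
        show x * y = _
        have hxT : π x ∈ T := by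
          rw [hxt]
          have h1 : π (W * t⁻¹ * W⁻¹) ∈ T := hconj W hWB _ (by rw [map_inv]; exact T.inv_mem ht)
          have : t * W * t⁻¹ * W⁻¹ = t * (W * t⁻¹ * W⁻¹) := by group
          rw [this, map_mul]; exact T.mul_mem ht h1
        have hcx : u * x = x * u := (hTab u x hu hxT).eq
        calc x * y = x * u * (W * u⁻¹ * W⁻¹) := by rw [hyu]; group
          _ = u * x * (W * u⁻¹ * W⁻¹) := by rw [hcx]
          _ = u * t * W * (u * t)⁻¹ * W⁻¹ := by rw [hxt]; group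
      inv_mem' := by
        rintro ⟨x, hx⟩ ⟨t, ht, hxt⟩
        refine ⟨t⁻¹, by rw [map_inv]; exact T.inv_mem ht, ?_⟩
        simp only at hxt
        show x⁻¹ = _
        have h2 : π (W * t * W⁻¹) ∈ T := hconj W hWB _ ht
        have hcc : t⁻¹ * (W * t * W⁻¹) = (W * t * W⁻¹) * t⁻¹ :=
          (hTab _ _ (by rw [map_inv]; exact T.inv_mem ht) h2).eq
        calc x⁻¹ = (W * t * W⁻¹) * t⁻¹ := by rw [hxt]; group
          _ = t⁻¹ * (W * t * W⁻¹) := by rw [hcc]
          _ = t⁻¹ * W * (t⁻¹)⁻¹ * W⁻¹ := by group }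
  have hNdef : ∀ x : B, x ∈ N ↔ ∃ t : E, π t ∈ T ∧ (x : E) = t * W * t⁻¹ * W⁻¹ := fun x => Iff.rfl
  have hBT' : ∀ b ∈ B, ∃ (t : E) (k : ℕ), π t ∈ T ∧ b = t * W ^ k := by
    intro b hb
    obtain ⟨t, ht, k, hk⟩ := hBT _ hb
    refine ⟨b * (W ^ k)⁻¹, k, ?_, by group⟩
    simp only [map_mul, map_inv, map_pow, hW]
    rw [hk]
    simpa using ht
  have hTsub : ∀ t : E, π t ∈ T → t ∈ B := fun t ht => hTB ht
  -- conj by W
  have hNW : ∀ k : ℕ, ∀ n : E, (∃ t : E, π t ∈ T ∧ n = t * W * t⁻¹ * W⁻¹) →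
      ∃ t : E, π t ∈ T ∧ W ^ k * n * (W ^ k)⁻¹ = t * W * t⁻¹ * W⁻¹ := by
    rintro k n ⟨t, ht, rfl⟩
    have hWk : W ^ k ∈ B := B.pow_mem hWB k
    refine ⟨W ^ k * t * (W ^ k)⁻¹, hconj _ hWk t ht, ?_⟩
    have hcw : (W ^ k)⁻¹ * W = W * (W ^ k)⁻¹ := by
      have : Commute ((W ^ k)⁻¹) W := (Commute.pow_self W k).inv_left
      exact this.eq
    have hcw2 : W ^ k * W = W * W ^ k := (Commute.pow_self W k).eq
    calc W ^ k * (t * W * t⁻¹ * W⁻¹) * (W ^ k)⁻¹
        = W ^ k * t * W * t⁻¹ * (W ^ k * W)⁻¹ := by group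
      _ = W ^ k * t * W * t⁻¹ * (W * W ^ k)⁻¹ := by rw [hcw2]
      _ = W ^ k * t * (W * (W ^ k)⁻¹) * W ^ k * t⁻¹ * (W ^ k)⁻¹ * W⁻¹ := by group
      _ = W ^ k * t * ((W ^ k)⁻¹ * W) * W ^ k * t⁻¹ * (W ^ k)⁻¹ * W⁻¹ := by rw [hcw]
      _ = W ^ k * t * (W ^ k)⁻¹ * W * (W ^ k * t * (W ^ k)⁻¹)⁻¹ * W⁻¹ := by group
  have hNT : ∀ n : E, (∃ t : E, π t ∈ T ∧ n = t * W * t⁻¹ * W⁻¹) → π n ∈ T := by
    rintro n ⟨t, ht, rfl⟩
    have h1 : π (W * t⁻¹ * W⁻¹) ∈ T := hconj W hWB _ (by rw [map_inv]; exact T.inv_mem ht)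
    have : t * W * t⁻¹ * W⁻¹ = t * (W * t⁻¹ * W⁻¹) := by group
    rw [this, map_mul]; exact T.mul_mem ht h1
  have hNn : N.Normal := by
    refine ⟨?_⟩
    intro n hn g
    rw [hNdef] at hn ⊢
    obtain ⟨t, k, ht, hg⟩ := hBT' g.1 g.2
    obtain ⟨u, hu, hun⟩ := hNW k n.1 hn
    refine ⟨u, hu, ?_⟩
    have h1 : π (W ^ k * n.1 * (W ^ k)⁻¹) ∈ T := hNT _ ⟨u, hu, hun⟩
    show g.1 * n.1 * (g.1)⁻¹ = _
    calc g.1 * n.1 * (g.1)⁻¹ = t * (W ^ k * n.1 * (W ^ k)⁻¹) * t⁻¹ := by rw [hg]; group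
      _ = (W ^ k * n.1 * (W ^ k)⁻¹) * t * t⁻¹ := by rw [(hTab t _ ht h1).eq]
      _ = u * W * u⁻¹ * W⁻¹ := by rw [hun]; group
  -- quotient commutative
  have hcommN : commutator B ≤ N := by
    rw [commutator_def, Subgroup.commutator_le]
    intro a _ b _
    have hq : Commute (QuotientGroup.mk' N a) (QuotientGroup.mk' N b) := by
      obtain ⟨t, k, ht, ha⟩ := hBT' a.1 a.2
      obtain ⟨u, l, hu, hb⟩ := hBT' b.1 b.2
      have ha' : a = (⟨t, hTsub t ht⟩ : B) * (⟨W, hWB⟩ : B) ^ k := by ext; simpa using ha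
      have hb' : b = (⟨u, hTsub u hu⟩ : B) * (⟨W, hWB⟩ : B) ^ l := by ext; simpa using hb
      have htw : ∀ t : E, ∀ ht : π t ∈ T, Commute (QuotientGroup.mk' N ⟨t, hTsub t ht⟩)
          (QuotientGroup.mk' N ⟨W, hWB⟩) := by
        intro t ht
        show (QuotientGroup.mk' N ⟨t, hTsub t ht⟩) * (QuotientGroup.mk' N ⟨W, hWB⟩) =
          (QuotientGroup.mk' N ⟨W, hWB⟩) * (QuotientGroup.mk' N ⟨t, hTsub t ht⟩)
        rw [← map_mul, ← map_mul]
        symm
        rw [QuotientGroup.mk'_apply, QuotientGroup.mk'_apply, QuotientGroup.eq]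
        rw [hNdef]
        have h2 : π (W⁻¹ * t * W) ∈ T := by
          have := hconj W⁻¹ (B.inv_mem hWB) t ht
          simpa using this
        refine ⟨W⁻¹ * t * W, h2, ?_⟩
        show (W * t)⁻¹ * (t * W) = _
        have hcc : t⁻¹ * (W⁻¹ * t * W) = (W⁻¹ * t * W) * t⁻¹ :=
          (hTab _ _ (by rw [map_inv]; exact T.inv_mem ht) h2).eq
        calc (W * t)⁻¹ * (t * W) = t⁻¹ * (W⁻¹ * t * W) := by group
          _ = (W⁻¹ * t * W) * t⁻¹ := hcc
          _ = W⁻¹ * t * W * W * (W⁻¹ * t * W)⁻¹ * W⁻¹ := by group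
      have htu : Commute (QuotientGroup.mk' N ⟨t, hTsub t ht⟩) (QuotientGroup.mk' N ⟨u, hTsub u hu⟩) := by
        have : Commute (⟨t, hTsub t ht⟩ : B) ⟨u, hTsub u hu⟩ := by
          show (⟨t, hTsub t ht⟩ : B) * ⟨u, hTsub u hu⟩ = ⟨u, hTsub u hu⟩ * ⟨t, hTsub t ht⟩
          ext
          exact (hTab t u ht hu).eq
        exact this.map _
      rw [ha', hb', map_mul, map_mul, map_pow, map_pow]
      have q1 := htu
      have q2 := (htw t ht).pow_right l
      have q3 := ((htw u hu).symm).pow_left k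
      have q4 := (Commute.refl (QuotientGroup.mk' N ⟨W, hWB⟩)).pow_pow k l
      exact (q1.mul_right q2).mul_left (q3.mul_right q4)
    have h1 : QuotientGroup.mk' N ⁅a, b⁆ = 1 := by
      rw [map_commutatorElement]
      exact commutatorElement_eq_one_iff_commute.2 hq
    have h2 : ⁅a, b⁆ ∈ (QuotientGroup.mk' N).ker := h1
    rwa [QuotientGroup.ker_mk'] at h2
  obtain ⟨t, ht, hzt⟩ := (hNdef _).1 (hcommN hstep)
  simp only at hzt
  -- pi t commutes with w
  have h1 : π t * w = w * π t := by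
    have := MonoidHom.mem_ker.1 hz
    rw [hzt] at this
    simp only [map_mul, map_inv, hW] at this
    calc π t * w = (π t * w * (π t)⁻¹ * w⁻¹) * (w * π t) := by group
      _ = w * π t := by rw [this, one_mul]
  have h2 := hsc _ ht h1
  have h3 : ∀ e : E, t * e * t⁻¹ * e⁻¹ ∈ π.ker := by
    intro e
    rw [MonoidHom.mem_ker]
    simp only [map_mul, map_inv]
    rw [← Subgroup.mem_center_iff.1 h2 (π e)]
    group
  let f : E →* Subgroup.center E :=
    { toFun := fun e => ⟨t * e * t⁻¹ * e⁻¹, hcen (h3 e)⟩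
      map_one' := by ext; simp
      map_mul' := by
        intro a b
        ext
        show t * (a * b) * t⁻¹ * (a * b)⁻¹ = (t * a * t⁻¹ * a⁻¹) * (t * b * t⁻¹ * b⁻¹)
        have := hker_comm _ (h3 b) a⁻¹
        calc t * (a * b) * t⁻¹ * (a * b)⁻¹
            = (t * a * t⁻¹) * ((t * b * t⁻¹ * b⁻¹) * a⁻¹) := by group
          _ = (t * a * t⁻¹) * (a⁻¹ * (t * b * t⁻¹ * b⁻¹)) := by rw [this]
          _ = _ := by group }
  have h4 := perfect_hom_trivial' hE f (fun a b => by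
    ext
    exact hker_comm _ (h3 b) _) W
  have h5 : t * W * t⁻¹ * W⁻¹ = 1 := congrArg Subtype.val h4
  exact hz1 (by rw [hzt, h5])

variable {F : Type} [Field F]

def supp3 (k : Fin 3) (A : SpecialLinearGroup (Fin 3) F) : Prop :=
  ∀ i j, (A : Matrix (Fin 3) (Fin 3) F) i j ≠ 0 → j = i + k

theorem supp3_mul {k l : Fin 3} {A B : SpecialLinearGroup (Fin 3) F} (hA : supp3 k A)
    (hB : supp3 l B) : supp3 (k + l) (A * B) := by
  intro i j h
  change ((A : Matrix (Fin 3) (Fin 3) F) * (B : Matrix (Fin 3) (Fin 3) F)) i j ≠ 0 at h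
  rw [Matrix.mul_apply] at h
  obtain ⟨m, _, hm⟩ := Finset.exists_ne_zero_of_sum_ne_zero h
  have h1 := hA i m (left_ne_zero_of_mul hm)
  have h2 := hB m j (right_ne_zero_of_mul hm)
  rw [h2, h1, add_assoc]

theorem supp3_one : supp3 0 (1 : SpecialLinearGroup (Fin 3) F) := by
  intro i j h
  change (1 : Matrix (Fin 3) (Fin 3) F) i j ≠ 0 at h
  by_contra hc
  exact h (Matrix.one_apply_ne (fun e => hc (by rw [e, add_zero])))

theorem supp3_inv {k : Fin 3} {A : SpecialLinearGroup (Fin 3) F} (hA : supp3 k A) :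
    supp3 (-k) A⁻¹ := by
  intro i j h
  have hmul : (A : Matrix (Fin 3) (Fin 3) F) * (A⁻¹ : SpecialLinearGroup (Fin 3) F) = 1 := by
    exact congrArg (fun A : SpecialLinearGroup (Fin 3) F => (A : Matrix (Fin 3) (Fin 3) F))
      (mul_inv_cancel A)
  have hrow : ∀ a b, ((A : Matrix (Fin 3) (Fin 3) F) * (A⁻¹ : SpecialLinearGroup (Fin 3) F)) a b
      = (A : Matrix (Fin 3) (Fin 3) F) a (a + k) *
        ((A⁻¹ : SpecialLinearGroup (Fin 3) F) : Matrix (Fin 3) (Fin 3) F) (a + k) b := by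
    intro a b
    rw [Matrix.mul_apply]
    apply Finset.sum_eq_single
    · intro m _ hm
      by_cases h0 : (A : Matrix (Fin 3) (Fin 3) F) a m = 0
      · rw [h0, zero_mul]
      · exact absurd (hA a m h0) hm
    · intro h; exact absurd (Finset.mem_univ _) h
  have hne : (A : Matrix (Fin 3) (Fin 3) F) (i - k) i ≠ 0 := by
    intro h0
    have := hrow (i - k) (i - k)
    rw [hmul, sub_add_cancel, h0, zero_mul, Matrix.one_apply_eq] at this
    exact one_ne_zero this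
  by_contra hc
  have h1 := hrow (i - k) j
  rw [hmul, sub_add_cancel, Matrix.one_apply_ne (fun e => hc (by rw [← e, sub_eq_add_neg]))] at h1
  rcases mul_eq_zero.1 h1.symm with h2 | h2
  · exact hne h2
  · exact h h2

theorem supp3_unique {k l : Fin 3} {A : SpecialLinearGroup (Fin 3) F} (hk : supp3 k A)
    (hl : supp3 l A) : k = l := by
  have h : A 0 ≠ 0 := SpecialLinearGroup.row_ne_zero A 0
  obtain ⟨j, hj⟩ := Function.ne_iff.1 h
  have h1 := hk 0 j hj
  have h2 := hl 0 j hj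
  rw [h1] at h2
  simpa using h2

/-- diagonal torus -/
def torus : Subgroup (SpecialLinearGroup (Fin 3) F) where
  carrier := {A | supp3 0 A}
  one_mem' := supp3_one
  mul_mem' := by
    intro a b ha hb
    have := supp3_mul ha hb
    simpa using this
  inv_mem' := by
    intro a ha
    have := supp3_inv ha
    simpa using this

/-- torus extended by cyclic permutations -/
def mono3 : Subgroup (SpecialLinearGroup (Fin 3) F) where
  carrier := {A | ∃ k, supp3 k A}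
  one_mem' := ⟨0, supp3_one⟩
  mul_mem' := by
    rintro a b ⟨k, ha⟩ ⟨l, hb⟩
    exact ⟨k + l, supp3_mul ha hb⟩
  inv_mem' := by
    rintro a ⟨k, ha⟩
    exact ⟨-k, supp3_inv ha⟩

/-- cyclic permutation -/
def wm : SpecialLinearGroup (Fin 3) F := ⟨!![0, 1, 0; 0, 0, 1; 1, 0, 0], by simp [Matrix.det_fin_three]⟩

theorem supp3_wm : supp3 1 (wm : SpecialLinearGroup (Fin 3) F) := by
  intro i j h
  fin_cases i <;> fin_cases j <;> first | rfl | (exfalso; revert h; simp [wm])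

theorem supp3_wm_pow (k : Fin 3) : supp3 k ((wm : SpecialLinearGroup (Fin 3) F) ^ (k : ℕ)) := by
  fin_cases k
  · simpa using supp3_one
  · simpa using supp3_wm
  · have := supp3_mul (supp3_wm (F := F)) supp3_wm
    simpa [pow_two] using this

/-- diagonal embedding -/
def dg : Fˣ × Fˣ →* SpecialLinearGroup (Fin 3) F where
  toFun p := ⟨Matrix.diagonal ![(p.1 : F), (p.2 : F), ((p.1 * p.2)⁻¹ : Fˣ)], by
    rw [Matrix.det_diagonal, Fin.prod_univ_three]
    show (p.1 : F) * (p.2 : F) * (((p.1 * p.2)⁻¹ : Fˣ) : F) = 1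
    rw [← Units.val_mul, ← Units.val_mul, mul_inv_cancel, Units.val_one]
    ⟩
  map_one' := by
    apply Subtype.ext
    show Matrix.diagonal _ = (1 : Matrix (Fin 3) (Fin 3) F)
    rw [← Matrix.diagonal_one]
    congr 1
    ext i; fin_cases i <;> simp
  map_mul' p q := by
    apply Subtype.ext
    show Matrix.diagonal _ = Matrix.diagonal _ * Matrix.diagonal _
    rw [Matrix.diagonal_mul_diagonal]
    congr 1
    ext i; fin_cases i
    · simp
    · simp
    · show (((p.1 * q.1 * (p.2 * q.2))⁻¹ : Fˣ) : F) = (((p.1 * p.2)⁻¹ : Fˣ) : F) * (((q.1 * q.2)⁻¹ : Fˣ) : F)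
      rw [← Units.val_mul]
      congr 1
      rw [← mul_inv]
      congr 1
      exact mul_mul_mul_comm _ _ _ _

theorem dg_val (p : Fˣ × Fˣ) : ((dg p : SpecialLinearGroup (Fin 3) F) : Matrix (Fin 3) (Fin 3) F)
    = Matrix.diagonal ![(p.1 : F), (p.2 : F), ((p.1 * p.2)⁻¹ : Fˣ)] := rfl

theorem dg_inj : Function.Injective (dg : Fˣ × Fˣ →* SpecialLinearGroup (Fin 3) F) := by
  rintro ⟨a, b⟩ ⟨c, d⟩ h
  have h1 := congrArg (fun A : SpecialLinearGroup (Fin 3) F => (A : Matrix (Fin 3) (Fin 3) F)) h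
  simp only [dg_val] at h1
  have h2 := Matrix.diagonal_injective h1
  have h3 := congrFun h2 0
  have h4 := congrFun h2 1
  simp at h3 h4
  rw [Prod.mk.injEq]
  exact ⟨Units.ext h3, Units.ext h4⟩

theorem dg_mem (p : Fˣ × Fˣ) : dg p ∈ (torus : Subgroup (SpecialLinearGroup (Fin 3) F)) := by
  intro i j h
  rw [add_zero]
  by_contra hc
  exact h (Matrix.diagonal_apply_ne _ (fun e => hc e.symm))

theorem torus_eq (t : SpecialLinearGroup (Fin 3) F) (ht : t ∈ torus) : ∃ p, t = dg p := by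
  set M : Matrix (Fin 3) (Fin 3) F := (t : Matrix (Fin 3) (Fin 3) F) with hM
  have hd : ∀ i j, i ≠ j → M i j = 0 := by
    intro i j hij
    by_contra hc
    exact hij (by have := ht i j hc; rw [add_zero] at this; exact this.symm)
  have hdet : M.det = 1 := t.2
  have hdiag : M = Matrix.diagonal (fun i => M i i) := by
    ext i j
    by_cases hij : i = j
    · subst hij; simp
    · rw [Matrix.diagonal_apply_ne _ hij]; exact hd i j hij
  rw [hdiag, Matrix.det_diagonal, Fin.prod_univ_three] at hdet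
  have h0 : M 0 0 ≠ 0 := by intro h; rw [h] at hdet; simp at hdet
  have h1 : M 1 1 ≠ 0 := by intro h; rw [h] at hdet; simp at hdet
  refine ⟨(Units.mk0 _ h0, Units.mk0 _ h1), ?_⟩
  apply Subtype.ext
  show M = _
  rw [dg_val]
  refine hdiag.trans ?_
  congr 1
  ext i
  fin_cases i
  · simp
  · simp
  · simp only [Units.val_inv_eq_inv_val, Units.val_mul, Units.val_mk0]
    show M 2 2 = (M 0 0 * M 1 1)⁻¹
    exact eq_inv_of_mul_eq_one_right hdet

theorem card_SL3 (hF : Nat.card F = 64) [Finite F] :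
    Nat.card (SpecialLinearGroup (Fin 3) F) * 63 = (64 ^ 3 - 1) * (64 ^ 3 - 64) * (64 ^ 3 - 64 ^ 2) := by
  classical
  have : Fintype F := Fintype.ofFinite F
  have hF' : Fintype.card F = 64 := by rw [← Nat.card_eq_fintype_card, hF]
  have h1 := Matrix.card_GL_field (𝔽 := F) 3
  rw [Fin.prod_univ_three, hF'] at h1
  have hsurj : Function.Surjective (GeneralLinearGroup.det : GL (Fin 3) F →* Fˣ) := by
    intro u
    refine ⟨GeneralLinearGroup.mkOfDetNeZero (Matrix.diagonal ![(u : F), 1, 1]) ?_, ?_⟩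
    · rw [Matrix.det_diagonal, Fin.prod_univ_three]; simp
    · apply Units.ext
      show (Matrix.diagonal ![(u : F), 1, 1]).det = u
      rw [Matrix.det_diagonal, Fin.prod_univ_three]; simp
  have hker : Nat.card (GeneralLinearGroup.det : GL (Fin 3) F →* Fˣ).ker
      = Nat.card (SpecialLinearGroup (Fin 3) F) := by
    symm
    apply Nat.card_congr
    refine Equiv.ofBijective (fun A => ⟨SpecialLinearGroup.toGL A, ?_⟩) ⟨?_, ?_⟩
    · rw [MonoidHom.mem_ker]
      apply Units.ext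
      exact A.2
    · intro A B h
      exact SpecialLinearGroup.toGL_injective (congrArg Subtype.val h)
    · rintro ⟨A, hA⟩
      have hd : (A : Matrix (Fin 3) (Fin 3) F).det = 1 := by
        have := congrArg Units.val (MonoidHom.mem_ker.1 hA)
        exact this
      refine ⟨⟨(A : Matrix (Fin 3) (Fin 3) F), hd⟩, ?_⟩
      apply Subtype.ext
      apply Units.ext
      rfl
  have hidx : (GeneralLinearGroup.det : GL (Fin 3) F →* Fˣ).ker.index = 63 := by
    rw [Subgroup.index_ker]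
    have : (GeneralLinearGroup.det : GL (Fin 3) F →* Fˣ).range = ⊤ := MonoidHom.range_eq_top.2 hsurj
    rw [this, Subgroup.card_top, Nat.card_units, hF]
  have h2 := Subgroup.card_mul_index (GeneralLinearGroup.det : GL (Fin 3) F →* Fˣ).ker
  rw [hker, hidx, h1] at h2
  rw [h2]
  norm_num

theorem card_mono3 (hF : Nat.card F = 64) [Finite F] :
    Nat.card (mono3 : Subgroup (SpecialLinearGroup (Fin 3) F)) = 3 * 63 ^ 2 := by
  have h : Nat.card (mono3 : Subgroup (SpecialLinearGroup (Fin 3) F))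
      = Nat.card (Fin 3 × (Fˣ × Fˣ)) := by
    symm
    apply Nat.card_congr
    refine Equiv.ofBijective (fun x => ⟨dg x.2 * wm ^ (x.1 : ℕ), x.1, ?_⟩) ⟨?_, ?_⟩
    · have := supp3_mul (dg_mem x.2) (supp3_wm_pow (F := F) x.1)
      simpa using this
    · rintro ⟨k, p⟩ ⟨l, q⟩ h
      have h1 : dg p * wm ^ (k : ℕ) = dg q * wm ^ (l : ℕ) := congrArg Subtype.val h
      have s1 := supp3_mul (dg_mem p) (supp3_wm_pow (F := F) k)
      have s2 := supp3_mul (dg_mem q) (supp3_wm_pow (F := F) l)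
      rw [h1] at s1
      have h2 : k = l := by have := supp3_unique s1 s2; simpa using this
      subst h2
      have h3 := mul_right_cancel h1
      rw [dg_inj h3]
    · rintro ⟨A, k, hk⟩
      have h1 : supp3 (k + -k) (A * (wm ^ (k : ℕ))⁻¹) := supp3_mul hk (supp3_inv (supp3_wm_pow k))
      rw [add_neg_cancel] at h1
      obtain ⟨p, hp⟩ := torus_eq _ h1
      refine ⟨(k, p), ?_⟩
      apply Subtype.ext
      show dg p * wm ^ (k : ℕ) = A
      rw [← hp]; group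
  rw [h, Nat.card_prod, Nat.card_prod, Nat.card_units, hF, Nat.card_eq_fintype_card, Fintype.card_fin]
  norm_num

theorem idx_mono3 (hF : Nat.card F = 64) [Finite F] :
    ¬ 3 ∣ (mono3 : Subgroup (SpecialLinearGroup (Fin 3) F)).index := by
  rintro ⟨c, hc⟩
  have h1 := Subgroup.card_mul_index (mono3 : Subgroup (SpecialLinearGroup (Fin 3) F))
  have h2 := card_SL3 hF
  rw [← h1, card_mono3 hF, hc] at h2
  norm_num at h2
  omega

theorem two_eq_zero (hF : Nat.card F = 64) [Finite F] : (2 : F) = 0 := by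
  have : Fintype F := Fintype.ofFinite F
  have h1 : (Fintype.card F : F) = 0 := FiniteField.cast_card_eq_zero F
  rw [← Nat.card_eq_fintype_card, hF] at h1
  have h2 : (2 : F) ^ 6 = 0 := by norm_num; exact_mod_cast h1
  exact pow_eq_zero_iff (by norm_num) |>.1 h2

/-- swap matrix, determinant -1 = 1 -/
def sw (h2 : (2 : F) = 0) : SpecialLinearGroup (Fin 3) F := ⟨!![0, 0, 1; 0, 1, 0; 1, 0, 0], by
  simp [Matrix.det_fin_three]
  linear_combination (-1 : F) * h2⟩

theorem mat_ext {A B : SpecialLinearGroup (Fin 3) F}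
    (h : (A : Matrix (Fin 3) (Fin 3) F) = (B : Matrix (Fin 3) (Fin 3) F)) : A = B := Subtype.ext h

theorem sw_conj (h2 : (2 : F) = 0) (a b c : Fˣ) (hc : a * b * c = 1) :
    sw h2 * dg (a, b) = dg (c, b) * sw h2 := by
  apply mat_ext
  show (!![0, 0, 1; 0, 1, 0; 1, 0, 0] : Matrix (Fin 3) (Fin 3) F) *
    Matrix.diagonal ![(a : F), (b : F), ((a * b)⁻¹ : Fˣ)] =
    Matrix.diagonal ![(c : F), (b : F), ((c * b)⁻¹ : Fˣ)] * !![0, 0, 1; 0, 1, 0; 1, 0, 0]
  have e1 : (a * b)⁻¹ = c := inv_eq_of_mul_eq_one_right hc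
  have e2 : (c * b)⁻¹ = a := by
    apply inv_eq_of_mul_eq_one_right
    rw [← hc]
    rw [mul_comm c b, mul_comm (b * c) a, mul_assoc]
  rw [e1, e2]
  ext i j
  fin_cases i <;> fin_cases j <;> simp [Matrix.mul_apply, Fin.sum_univ_three]

theorem wm_comm (t : SpecialLinearGroup (Fin 3) F) (ht : t ∈ torus) (h : t * wm = wm * t) :
    t ∈ Subgroup.center (SpecialLinearGroup (Fin 3) F) := by
  obtain ⟨⟨a, b⟩, rfl⟩ := torus_eq t ht
  have h1 := congrArg (fun A : SpecialLinearGroup (Fin 3) F => (A : Matrix (Fin 3) (Fin 3) F)) h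
  change Matrix.diagonal ![(a : F), (b : F), ((a * b)⁻¹ : Fˣ)] *
    (!![0, 1, 0; 0, 0, 1; 1, 0, 0] : Matrix (Fin 3) (Fin 3) F) =
    !![0, 1, 0; 0, 0, 1; 1, 0, 0] * Matrix.diagonal ![(a : F), (b : F), ((a * b)⁻¹ : Fˣ)] at h1
  have h2 := congrFun (congrFun h1 0) 1
  have h3 := congrFun (congrFun h1 1) 2
  simp [Matrix.mul_apply, Fin.sum_univ_three] at h2 h3
  have hd : Matrix.diagonal ![(a : F), (b : F), ((a * b)⁻¹ : Fˣ)] = (a : F) • (1 : Matrix (Fin 3) (Fin 3) F) := by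
    rw [Matrix.smul_one_eq_diagonal]
    congr 1
    ext i
    fin_cases i
    · rfl
    · exact h2.symm
    · simp only [Units.val_inv_eq_inv_val, Units.val_mul]
      show ((a : F) * (b : F))⁻¹ = a
      rw [_root_.mul_inv_rev, ← h3, h2]
  rw [Subgroup.mem_center_iff]
  intro g
  apply mat_ext
  show (g : Matrix (Fin 3) (Fin 3) F) * Matrix.diagonal ![(a : F), (b : F), ((a * b)⁻¹ : Fˣ)] =
    Matrix.diagonal ![(a : F), (b : F), ((a * b)⁻¹ : Fˣ)] * (g : Matrix (Fin 3) (Fin 3) F)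
  rw [hd]
  simp


/-- A finite perfect group has no surjection onto `SL(3, F)`, `|F| = 64`, with central kernel of
order 3 (the Schur multiplier of `SL(3,64)` has no 3-part). -/
theorem no_perfect_ext (F : Type) [Field F] [Finite F] (hF : Nat.card F = 64)
    (E : Type) [Group E] [Finite E] (hE : commutator E = ⊤)
    (π : E →* SpecialLinearGroup (Fin 3) F) (hπ : Function.Surjective π)
    (hcen : π.ker ≤ Subgroup.center E) (hcard : Nat.card π.ker = 3) : False := by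
  have h2 : (2 : F) = 0 := two_eq_zero hF
  obtain ⟨g, hg⟩ := IsCyclic.exists_generator (α := Fˣ)
  refine abs_core hE π hπ hcen hcard torus mono3 wm (sw h2) (dg (g, g⁻¹)) (dg (1, g))
    ?_ ⟨1, supp3_wm⟩ ?_ ?_ ?_ ?_ ?_ ?_ ?_ (idx_mono3 hF)
  · intro t ht
    exact ⟨0, ht⟩
  · rintro b ⟨k, hk⟩
    refine ⟨b * (wm ^ (k : ℕ))⁻¹, ?_, (k : ℕ), by group⟩
    have h1 : supp3 (k + -k) (b * (wm ^ (k : ℕ))⁻¹) := supp3_mul hk (supp3_inv (supp3_wm_pow k))
    rw [add_neg_cancel] at h1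
    exact h1
  · rintro b ⟨k, hk⟩ t ht
    have h1 : supp3 (k + 0 + -k) (b * t * b⁻¹) := supp3_mul (supp3_mul hk ht) (supp3_inv hk)
    rw [add_zero, add_neg_cancel] at h1
    exact h1
  · rw [← map_mul, ← map_mul]
    congr 1
    simp
  · intro t ht
    obtain ⟨⟨a, b⟩, rfl⟩ := torus_eq t ht
    obtain ⟨i, hi⟩ := Subgroup.mem_zpowers_iff.1 (hg a)
    obtain ⟨j, hj⟩ := Subgroup.mem_zpowers_iff.1 (hg b)
    refine ⟨i, i + j, ?_⟩
    rw [← map_zpow, ← map_zpow, ← map_mul]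
    congr 1
    rw [← hi, ← hj]
    ext1
    · simp
    · simp [_root_.zpow_add]
  · have h1 := sw_conj h2 g g⁻¹ 1 (by simp)
    rw [h1, ← map_inv]
    simp
  · have h1 := sw_conj h2 1 g g⁻¹ (by simp)
    rw [h1, ← map_inv]
    simp
  · exact wm_comm

end Pool.Agent.Helper554
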