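import Mathlib
set_option autoImplicit false
namespace Pool.Agent.Helper554.Form

open Subgroup
open scoped commutatorElement

/-- hypotheses on `Z ≤ L ≤ G` -/
structure GData (G : Type) [Group G] (Z L : Subgroup G) [Z.Normal] [L.Normal] : Prop where
  ZL : Z ≤ L
  Zc : Z ≤ center G
  Zp : (Nat.card Z).Prime
  norm : ∀ N : Subgroup G, N.Normal → L ≤ N ∨ N ≤ Z
  perf : ⁅L, L⁆ = L
  LZ : ¬ L ≤ Z
  cyc : IsCyclic (G ⧸ L)
  lift : ∀ R : Subgroup (G × G), ⁅R, R⁆ = R → R.map (MonoidHom.fst G G) = L →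
    R.map (MonoidHom.snd G G) = L → (∀ r ∈ R, r.1 ∈ Z ↔ r.2 ∈ Z) → ∀ r ∈ R, r.1 = 1 → r.2 = 1

variable {G : Type} [Group G] {Z L : Subgroup G} [Z.Normal] [L.Normal]

lemma GData.comm (h : GData G Z L) (x y : G) : ⁅x, y⁆ ∈ L := by
  have := h.cyc
  rw [← QuotientGroup.eq_one_iff]
  have h1 : IsMulCommutative (G ⧸ L) := inferInstance
  have h2 : (x : G ⧸ L) * y = y * x := h1.is_comm.comm _ _
  have h3 : ((⁅x, y⁆ : G) : G ⧸ L) = (x : G ⧸ L) * y * (x : G ⧸ L)⁻¹ * (y : G ⧸ L)⁻¹ := rfl
  rw [h3, h2]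
  group

lemma GData.Zcomm (h : GData G Z L) {z : G} (hz : z ∈ Z) (g : G) : g * z = z * g :=
  mem_center_iff.1 (h.Zc hz) g

lemma GData.cent (h : GData G Z L) {g : G} (hg : ∀ l ∈ L, g * l = l * g) : g ∈ Z := by
  have hn : (centralizer (L : Set G)).Normal := by infer_instance
  rcases h.norm _ hn with h1 | h1
  · exfalso
    have : ⁅L, L⁆ = ⊥ := by
      rw [commutator_eq_bot_iff_le_centralizer]
      exact h1
    rw [h.perf] at this
    exact h.LZ (this ▸ bot_le)
  · apply h1
    rw [mem_centralizer_iff]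
    intro l hl
    exact (hg l hl).symm

/-- every surjection `p : S → G` has an attached smallest normal subgroup mapping onto `L` -/
lemma exists_R (h : GData G Z L) {S : Type} [Group S] [Finite S] (p : S →* G)
    (hp : Function.Surjective p) :
    ∃ R : Subgroup S, R.Normal ∧ R.map p = L ∧ ⁅R, R⁆ = R ∧
      ∀ T : Subgroup S, T.Normal → R ≤ T ∨ T ≤ Z.comap p := by
  classical
  have hne : ({T : Subgroup S | T.Normal ∧ L ≤ T.map p} : Set (Subgroup S)).Nonempty :=
    ⟨⊤, inferInstance, by rw [map_top_of_surjective p hp]; exact le_top⟩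
  obtain ⟨R, hR⟩ := Set.Finite.exists_minimal (Set.toFinite
    {T : Subgroup S | T.Normal ∧ L ≤ T.map p}) hne
  have hRn : R.Normal := hR.prop.1
  have hRL : L ≤ R.map p := hR.prop.2
  have key : ∀ T : Subgroup S, T.Normal → L ≤ T.map p → R = ⁅R, T⁆ := by
    intro T hT hTL
    have h1 : ⁅R, T⁆.Normal := inferInstance
    have h2 : L ≤ (⁅R, T⁆).map p := by
      rw [map_commutator]
      calc L = ⁅L, L⁆ := h.perf.symm
        _ ≤ _ := commutator_mono hRL hTL
    have h3 : ⁅R, T⁆ ≤ R := commutator_le_left R T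
    exact le_antisymm (hR.le_of_le ⟨h1, h2⟩ h3) h3
  have hperf : ⁅R, R⁆ = R := (key R hRn hRL).symm
  refine ⟨R, hRn, ?_, hperf, ?_⟩
  · apply le_antisymm _ hRL
    rw [← hperf, map_commutator, commutator_le]
    intro x _ y _
    exact h.comm x y
  · intro T hT
    have hTm : (T.map p).Normal := hT.map p hp
    rcases h.norm _ hTm with h1 | h1
    · left
      rw [key T hT h1]
      exact commutator_le_right R T
    · right
      rwa [map_le_iff_le_comap] at h1

/-- a group `S` with jointly injective surjections `p i : S → G`, and the attached subgroups -/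
structure SData (G : Type) [Group G] (Z L : Subgroup G) (S : Type) [Group S] {n : ℕ}
    (p : Fin n → S →* G) (R : Fin n → Subgroup S) : Prop where
  surj : ∀ i, Function.Surjective (p i)
  inj : ∀ s, (∀ i, p i s = 1) → s = 1
  Rn : ∀ i, (R i).Normal
  Rmap : ∀ i, (R i).map (p i) = L
  Rperf : ∀ i, ⁅R i, R i⁆ = R i
  Rmin : ∀ i, ∀ T : Subgroup S, T.Normal → R i ≤ T ∨ T ≤ Z.comap (p i)

section
variable {S : Type} [Group S] {n : ℕ} {p : Fin n → S →* G} {R : Fin n → Subgroup S}

lemma SData.map_or (hs : SData G Z L S p R) (h : GData G Z L) (i j : Fin n) :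
    (R i).map (p j) = L ∨ (R i).map (p j) = ⊥ := by
  have hn : ((R i).map (p j)).Normal := (hs.Rn i).map _ (hs.surj j)
  have hp : ⁅(R i).map (p j), (R i).map (p j)⁆ = (R i).map (p j) := by
    rw [← map_commutator, hs.Rperf]
  rcases h.norm _ hn with h1 | h1
  · left
    apply le_antisymm _ h1
    rw [← hp, commutator_le]
    intro x _ y _
    exact h.comm x y
  · right
    rw [← hp, commutator_eq_bot_iff_le_centralizer]
    intro x hx
    rw [mem_centralizer_iff]
    intro y _
    exact h.Zcomm (h1 hx) y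

lemma SData.not_le (hs : SData G Z L S p R) (h : GData G Z L) (i : Fin n) :
    ¬ R i ≤ Z.comap (p i) := by
  intro h1
  rw [← map_le_iff_le_comap, hs.Rmap] at h1
  exact h.LZ h1

lemma SData.L_ne_bot (h : GData G Z L) : L ≠ ⊥ := by
  intro h1
  exact h.LZ (h1 ▸ bot_le)

lemma SData.R_eq (hs : SData G Z L S p R) (h : GData G Z L) (i j : Fin n)
    (hij : (R i).map (p j) = L) : R i = R j := by
  have h1 : R j ≤ R i := by
    rcases hs.Rmin j (R i) (hs.Rn i) with h2 | h2
    · exact h2
    · exfalso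
      rw [← map_le_iff_le_comap, hij] at h2
      exact h.LZ h2
  apply le_antisymm _ h1
  rcases hs.Rmin i (R j) (hs.Rn j) with h2 | h2
  · exact h2
  · exfalso
    have h3 : (R j).map (p i) = ⊥ := by
      rcases hs.map_or h j i with h4 | h4
      · exfalso
        rw [← map_le_iff_le_comap, h4] at h2
        exact h.LZ h2
      · exact h4
    have := hs.Rn i
    have hTn : (R i ⊓ (p j).ker).Normal := inferInstance
    have hTL : L ≤ (R i ⊓ (p j).ker).map (p i) := by
      intro l hl
      rw [← hs.Rmap i] at hl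
      obtain ⟨r, hr, rfl⟩ := hl
      have hrj : p j r ∈ L := by
        rw [← hij]
        exact ⟨r, hr, rfl⟩
      rw [← hs.Rmap j] at hrj
      obtain ⟨r', hr', he⟩ := hrj
      refine ⟨r'⁻¹ * r, ⟨(R i).mul_mem ((R i).inv_mem (h1 hr')) hr, ?_⟩, ?_⟩
      · show p j (r'⁻¹ * r) = 1
        rw [map_mul, map_inv, he]
        group
      · have : p i r' = 1 := by
          have : p i r' ∈ (R j).map (p i) := ⟨r', hr', rfl⟩
          rw [h3] at this
          exact this
        rw [map_mul, map_inv, this]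
        simp
    rcases hs.Rmin i _ hTn with h4 | h4
    · have h5 : (R i).map (p j) = ⊥ := by
        rw [eq_bot_iff, map_le_iff_le_comap]
        intro x hx
        exact (h4 hx).2
      rw [hij] at h5
      exact SData.L_ne_bot h h5
    · rw [← map_le_iff_le_comap] at h4
      exact h.LZ (hTL.trans h4)

lemma SData.C_le (hs : SData G Z L S p R) (h : GData G Z L) (i j : Fin n)
    (hij : (R i).map (p j) = L) : Z.comap (p i) ≤ Z.comap (p j) := by
  have hn : (Z.comap (p i)).Normal := inferInstance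
  rcases hs.Rmin j _ hn with h1 | h1
  · exfalso
    rw [← hs.R_eq h i j hij] at h1
    exact hs.not_le h i h1
  · exact h1

lemma SData.symm (hs : SData G Z L S p R) (h : GData G Z L) (i j : Fin n)
    (hij : (R i).map (p j) = L) : (R j).map (p i) = L := by
  rw [← hs.R_eq h i j hij]
  exact hs.Rmap i

lemma SData.C_comm (hs : SData G Z L S p R) (h : GData G Z L) (i : Fin n) (s r : S)
    (hsZ : p i s ∈ Z) (hr : r ∈ R i) : s * r = r * s := by
  rw [← commutatorElement_eq_one_iff_mul_comm]
  apply hs.inj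
  intro j
  rw [map_commutatorElement, commutatorElement_eq_one_iff_mul_comm]
  rcases hs.map_or h i j with h1 | h1
  · have : p j s ∈ Z := hs.C_le h i j h1 hsZ
    exact (h.Zcomm this _).symm
  · have : p j r ∈ (R i).map (p j) := ⟨r, hr, rfl⟩
    rw [h1, mem_bot] at this
    rw [this]
    simp

lemma SData.RC_center (hs : SData G Z L S p R) (h : GData G Z L) (i : Fin n) (r : S)
    (hrZ : p i r ∈ Z) (hr : r ∈ R i) : r ∈ center S := by
  rw [mem_center_iff]
  intro s
  rw [← commutatorElement_eq_one_iff_mul_comm]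
  apply hs.inj
  intro j
  rw [map_commutatorElement, commutatorElement_eq_one_iff_mul_comm]
  rcases hs.map_or h i j with h1 | h1
  · have : p j r ∈ Z := hs.C_le h i j h1 hrZ
    exact h.Zcomm this _
  · have : p j r ∈ (R i).map (p j) := ⟨r, hr, rfl⟩
    rw [h1, mem_bot] at this
    rw [this]
    simp

lemma SData.R_inj (hs : SData G Z L S p R) (h : GData G Z L) (i : Fin n) (r : S)
    (hr : r ∈ R i) (hr1 : p i r = 1) : r = 1 := by
  apply hs.inj
  intro j
  rcases hs.map_or h i j with h1 | h1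
  · let q : S →* G × G := (p i).prod (p j)
    have hq1 : ⁅(R i).map q, (R i).map q⁆ = (R i).map q := by
      rw [← map_commutator, hs.Rperf]
    have hq2 : ((R i).map q).map (MonoidHom.fst G G) = L := by
      rw [map_map, show (MonoidHom.fst G G).comp q = p i from MonoidHom.fst_comp_prod _ _]
      exact hs.Rmap i
    have hq3 : ((R i).map q).map (MonoidHom.snd G G) = L := by
      rw [map_map, show (MonoidHom.snd G G).comp q = p j from MonoidHom.snd_comp_prod _ _]
      exact h1
    have hq4 : ∀ x ∈ (R i).map q, x.1 ∈ Z ↔ x.2 ∈ Z := by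
      rintro _ ⟨x, hx, rfl⟩
      exact ⟨fun h2 => hs.C_le h i j h1 h2, fun h2 => hs.C_le h j i (hs.symm h i j h1) h2⟩
    exact h.lift _ hq1 hq2 hq3 hq4 (q r) ⟨r, hr, rfl⟩ hr1
  · have : p j r ∈ (R i).map (p j) := ⟨r, hr, rfl⟩
    rw [h1, mem_bot] at this
    exact this

end

end Pool.Agent.Helper554.Form
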