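import Mathlib
import Pool.Agent.Helper554.Form.C1
set_option autoImplicit false
namespace Pool.Agent.Helper554.Form

open Subgroup
open scoped commutatorElement

variable {G : Type} [Group G] {Z L : Subgroup G} [Z.Normal] [L.Normal]

section
variable {S : Type} [Group S] {n : ℕ} {p : Fin n → S →* G} {R : Fin n → Subgroup S}

/-- the pair property of a commutator -/
lemma SData.pair (hs : SData G Z L S p R) (h : GData G Z L) (i j : Fin n)
    (hij : (R i).map (p j) = L) (s t r : S) (hr : r ∈ R i) (he : p i r = p i ⁅s, t⁆) :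
    p j r = p j ⁅s, t⁆ := by
  have hRn := hs.Rn i
  have hcyc := h.cyc
  let N : Subgroup S := R i ⊔ ((p i).ker ⊓ (p j).ker)
  have hNn : N.Normal := inferInstance
  have hNk : N ≤ ((QuotientGroup.mk' L).comp (p i)).ker := by
    apply sup_le
    · intro x hx
      rw [MonoidHom.mem_ker]
      show ((p i x : G) : G ⧸ L) = 1
      rw [QuotientGroup.eq_one_iff, ← hs.Rmap i]
      exact ⟨x, hx, rfl⟩
    · intro x hx
      rw [MonoidHom.mem_ker]
      have : p i x = 1 := hx.1
      simp [this]
  let φ : S ⧸ N →* G ⧸ L := QuotientGroup.lift N ((QuotientGroup.mk' L).comp (p i)) hNk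
  have hφ : φ.ker ≤ center (S ⧸ N) := by
    intro x hx
    obtain ⟨x, rfl⟩ := QuotientGroup.mk_surjective x
    have hxL : p i x ∈ L := by
      rw [← QuotientGroup.eq_one_iff]
      exact hx
    rw [← hs.Rmap i] at hxL
    obtain ⟨r', hr', he'⟩ := hxL
    rw [mem_center_iff]
    intro y
    obtain ⟨y, rfl⟩ := QuotientGroup.mk_surjective y
    have h1 : (x : S ⧸ N) = ((r'⁻¹ * x : S) : S ⧸ N) := by
      rw [QuotientGroup.mk_mul, QuotientGroup.mk_inv]
      have : (r' : S ⧸ N) = 1 := by
        rw [QuotientGroup.eq_one_iff]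
        exact mem_sup_left hr'
      rw [this]
      simp
    have h2 : p i (r'⁻¹ * x) = 1 := by
      rw [map_mul, map_inv, he']
      group
    have h3 : p j (r'⁻¹ * x) ∈ Z := by
      apply hs.C_le h i j hij
      show p i (r'⁻¹ * x) ∈ Z
      rw [h2]
      exact Z.one_mem
    rw [h1, ← QuotientGroup.mk_mul, ← QuotientGroup.mk_mul, QuotientGroup.eq]
    apply mem_sup_right
    constructor
    · show p i ((y * (r'⁻¹ * x))⁻¹ * (r'⁻¹ * x * y)) = 1
      rw [map_mul, map_inv, map_mul, map_mul (p i) (r'⁻¹ * x) y, h2]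
      simp
    · show p j ((y * (r'⁻¹ * x))⁻¹ * (r'⁻¹ * x * y)) = 1
      rw [map_mul, map_inv, map_mul, map_mul (p j) (r'⁻¹ * x) y, h.Zcomm h3]
      group
  have hcomm := (φ.isMulCommutative_of_isCyclic_of_ker_le_center hφ).is_comm.comm
  have hc : ⁅s, t⁆ ∈ N := by
    rw [← QuotientGroup.eq_one_iff]
    have h3 : ((⁅s, t⁆ : S) : S ⧸ N) = (s : S ⧸ N) * t * (s : S ⧸ N)⁻¹ * (t : S ⧸ N)⁻¹ := rfl
    rw [h3, hcomm (s : S ⧸ N) t]
    group
  obtain ⟨r', hr', k, hk, hrk⟩ := mem_sup_of_normal_left.1 hc
  have h1 : p i ⁅s, t⁆ = p i r' := by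
    rw [← hrk, map_mul, show p i k = 1 from hk.1, mul_one]
  have h2 : p j ⁅s, t⁆ = p j r' := by
    rw [← hrk, map_mul, show p j k = 1 from hk.2, mul_one]
  have h3 : r⁻¹ * r' = 1 := by
    apply hs.R_inj h i _ ((R i).mul_mem ((R i).inv_mem hr) hr')
    rw [map_mul, map_inv, he, h1]
    group
  rw [h2, show r' = r by rw [inv_mul_eq_one] at h3; exact h3.symm]

/-- the property used for the induction -/
def Pair (L : Subgroup G) (p : Fin n → S →* G) (R : Fin n → Subgroup S) (x : S) : Prop :=
  (∀ i, p i x ∈ L) ∧ ∀ i j, (R i).map (p j) = L → ∀ r ∈ R i, p i r = p i x → p j r = p j x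

lemma SData.pair_mem (hs : SData G Z L S p R) (h : GData G Z L) (m : ℕ) :
    ∀ x : S, Pair L p R x → {i | p i x ≠ 1}.ncard ≤ m → x ∈ ⨆ i, R i := by
  induction m with
  | zero =>
    intro x _ hx
    have h0 : {i | p i x ≠ 1} = ∅ := by
      rw [← Set.ncard_eq_zero (Set.toFinite _)]
      omega
    have : x = 1 := by
      apply hs.inj
      intro i
      by_contra hi
      have : i ∈ ({i | p i x ≠ 1} : Set (Fin n)) := hi
      rw [h0] at this
      exact this
    rw [this]
    exact one_mem _
  | succ m ih =>
    intro x hx hm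
    by_cases h0 : ∀ i, p i x = 1
    · rw [hs.inj x h0]
      exact one_mem _
    · push Not at h0
      obtain ⟨i, hi⟩ := h0
      have hiL := hx.1 i
      rw [← hs.Rmap i] at hiL
      obtain ⟨r, hr, he⟩ := hiL
      have hkey : ∀ j, ((R i).map (p j) = L ∧ p j (r⁻¹ * x) = 1) ∨
          ((R i).map (p j) = ⊥ ∧ p j (r⁻¹ * x) = p j x) := by
        intro j
        rcases hs.map_or h i j with h1 | h1
        · left
          refine ⟨h1, ?_⟩
          have := hx.2 i j h1 r hr he
          rw [map_mul, map_inv, this]
          group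
        · right
          refine ⟨h1, ?_⟩
          have h2 : p j r = 1 := by
            have : p j r ∈ (R i).map (p j) := ⟨r, hr, rfl⟩
            rwa [h1, mem_bot] at this
          rw [map_mul, map_inv, h2]
          simp
      have hLb := SData.L_ne_bot h
      have hx' : Pair L p R (r⁻¹ * x) := by
        constructor
        · intro j
          rcases hkey j with ⟨_, h1⟩ | ⟨_, h1⟩
          · rw [h1]
            exact L.one_mem
          · rw [h1]
            exact hx.1 j
        · intro j k hjk r' hr' he'
          rcases hkey j with ⟨h1, h2⟩ | ⟨h1, h2⟩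
          · have hij : R i = R j := hs.R_eq h i j h1
            rcases hkey k with ⟨h3, h4⟩ | ⟨h3, h4⟩
            · rw [h2] at he'
              rw [hs.R_inj h j r' hr' he', h4, map_one]
            · exfalso
              rw [hij, hjk] at h3
              exact hLb h3
          · rcases hkey k with ⟨h3, h4⟩ | ⟨h3, h4⟩
            · exfalso
              have h5 : R i = R k := hs.R_eq h i k h3
              have h6 : R j = R k := hs.R_eq h j k hjk
              rw [h5, ← h6, hs.Rmap j] at h1
              exact hLb h1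
            · rw [h4]
              rw [h2] at he'
              exact hx.2 j k hjk r' hr' he'
      have hsub : {j | p j (r⁻¹ * x) ≠ 1} ⊂ {j | p j x ≠ 1} := by
        constructor
        · intro j hj
          rcases hkey j with ⟨_, h2⟩ | ⟨_, h2⟩
          · exact absurd h2 hj
          · show p j x ≠ 1
            rw [← h2]
            exact hj
        · intro hsub
          have h1 : i ∈ {j | p j (r⁻¹ * x) ≠ 1} := hsub hi
          apply h1
          rw [map_mul, map_inv, he]
          group
      have hlt := Set.ncard_lt_ncard hsub (Set.toFinite _)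
      have := ih (r⁻¹ * x) hx' (by omega)
      have h2 : x = r * (r⁻¹ * x) := by group
      rw [h2]
      exact mul_mem (mem_iSup_of_mem i hr) this

lemma SData.comm_mem (hs : SData G Z L S p R) (h : GData G Z L) (s t : S) :
    ⁅s, t⁆ ∈ ⨆ i, R i := by
  apply hs.pair_mem h _ _ _ le_rfl
  constructor
  · intro i
    rw [map_commutatorElement]
    exact h.comm _ _
  · intro i j hij r hr he
    exact hs.pair h i j hij s t r hr he

end

/-- A finite commutative group in which any two nontrivial subgroups meet is cyclic. -/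
lemma cyclic_of_mono (H : Type) [CommGroup H] [Finite H]
    (hm : ∀ A B : Subgroup H, A ≠ ⊥ → B ≠ ⊥ → A ⊓ B ≠ ⊥) : IsCyclic H := by
  classical
  obtain ⟨ι, _, k, hk, ⟨e⟩⟩ := CommGroup.equiv_prod_multiplicative_zmod_of_finite H
  by_cases hι : ∀ i j : ι, i = j
  · by_cases hne : Nonempty ι
    · obtain ⟨i⟩ := hne
      let f : Multiplicative (ZMod (k i)) →* H := e.symm.toMonoidHom.comp
        (MonoidHom.mulSingle (fun i => Multiplicative (ZMod (k i))) i)
      have hf : Function.Surjective f := by
        intro y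
        refine ⟨e y i, ?_⟩
        show e.symm (Pi.mulSingle i (e y i)) = y
        rw [MulEquiv.symm_apply_eq]
        ext j
        obtain rfl := hι i j
        simp
      exact isCyclic_of_surjective f hf
    · have : IsEmpty ι := not_nonempty_iff.1 hne
      have : Subsingleton H := e.toEquiv.subsingleton
      infer_instance
  · exfalso
    push Not at hι
    obtain ⟨i, j, hij⟩ := hι
    have hnt : ∀ i, ∃ a : Multiplicative (ZMod (k i)), a ≠ 1 := by
      intro i
      have : Fact (1 < k i) := ⟨hk i⟩
      exact exists_ne 1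
    let A : ι → Subgroup H := fun i => (MonoidHom.range
      (e.symm.toMonoidHom.comp (MonoidHom.mulSingle (fun i => Multiplicative (ZMod (k i))) i)))
    have hA : ∀ i, A i ≠ ⊥ := by
      intro i h0
      obtain ⟨a, ha⟩ := hnt i
      have h1 : e.symm (Pi.mulSingle i a) ∈ A i := ⟨a, rfl⟩
      rw [h0, mem_bot, MulEquiv.symm_apply_eq, map_one] at h1
      apply ha
      have := congrFun h1 i
      simpa using this
    apply hm (A i) (A j) (hA i) (hA j)
    rw [eq_bot_iff]
    rintro _ ⟨⟨a, rfl⟩, ⟨b, hb⟩⟩
    have h1 : (Pi.mulSingle j b : (i : ι) → Multiplicative (ZMod (k i))) = Pi.mulSingle i a :=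
      e.symm.injective hb
    have h2 := congrFun h1 i
    rw [Pi.mulSingle_eq_same, Pi.mulSingle_eq_of_ne hij] at h2
    rw [mem_bot]
    show e.symm (Pi.mulSingle i a) = 1
    rw [← h2]
    simp

end Pool.Agent.Helper554.Form
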