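import Mathlib
import Pool.Agent.Helper554.Form.C2
set_option autoImplicit false
namespace Pool.Agent.Helper554.Form

open Subgroup
open scoped commutatorElement

/-- two homomorphisms from a perfect group agree if they agree up to commuting elements -/
lemma hom_eq_of_perfect {A B : Type} [Group A] [Group B] (hA : commutator A = ⊤) (f g : A →* B)
    (hf : ∀ x y, ((f x)⁻¹ * g x) * f y = f y * ((f x)⁻¹ * g x))
    (hg : ∀ x y, ((f x)⁻¹ * g x) * g y = g y * ((f x)⁻¹ * g x)) : f = g := by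
  have key : commutator A ≤ f.eqLocus g := by
    rw [commutator_def, commutator_le]
    intro x _ y _
    show f ⁅x, y⁆ = g ⁅x, y⁆
    rw [map_commutatorElement, map_commutatorElement]
    have h1 : g x = f x * ((f x)⁻¹ * g x) := by group
    have h2 : g y = f y * ((f y)⁻¹ * g y) := by group
    have e1 : ⁅g x, g y⁆ = ⁅f x, g y⁆ := by
      rw [commutatorElement_def, commutatorElement_def]
      have : g x * g y * (g x)⁻¹ = f x * g y * (f x)⁻¹ := by
        calc g x * g y * (g x)⁻¹ = f x * (((f x)⁻¹ * g x) * g y) * (g x)⁻¹ := by group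
          _ = f x * (g y * ((f x)⁻¹ * g x)) * (g x)⁻¹ := by rw [hg x y]
          _ = f x * g y * (f x)⁻¹ := by group
      rw [this]
    have e2 : ⁅f x, g y⁆ = ⁅f x, f y⁆ := by
      rw [commutatorElement_def, commutatorElement_def]
      have h3 := hf y x
      have : g y * (f x)⁻¹ * (g y)⁻¹ = f y * (f x)⁻¹ * (f y)⁻¹ := by
        calc g y * (f x)⁻¹ * (g y)⁻¹
            = f y * ((f x)⁻¹ * (f x * ((f y)⁻¹ * g y)) * (f x)⁻¹) * (g y)⁻¹ := by group
          _ = f y * ((f x)⁻¹ * (((f y)⁻¹ * g y) * f x) * (f x)⁻¹) * (g y)⁻¹ := by rw [← h3]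
          _ = f y * (f x)⁻¹ * (f y)⁻¹ := by group
      calc f x * g y * (f x)⁻¹ * (g y)⁻¹ = f x * (g y * (f x)⁻¹ * (g y)⁻¹) := by group
        _ = f x * (f y * (f x)⁻¹ * (f y)⁻¹) := by rw [this]
        _ = _ := by group
    rw [e1, e2]
  ext x
  have : x ∈ commutator A := by rw [hA]; trivial
  exact key this

/-- subformations of `form(G)` -/
def IsForm (G : Type) [Group G] (F : ∀ (H : Type) [Group H], Prop) : Prop :=
  (∀ (H : Type) [Group H], F H → ∃ n : ℕ, ∃ S : Subgroup (Fin n → G),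
      (∀ (i : Fin n) (g : G), ∃ s ∈ S, s i = g) ∧
      ∃ f : S →* H, Function.Surjective f) ∧
  (∀ (H K : Type) [Group H] [Group K] (f : H →* K),
      Function.Surjective f → F H → F K) ∧
  (∀ (H : Type) [Group H] (N1 N2 : Subgroup H) [N1.Normal] [N2.Normal],
      F (H ⧸ N1) → F (H ⧸ N2) → F (H ⧸ (N1 ⊓ N2)))

lemma IsForm.subdirect {G : Type} [Group G] {F : ∀ (H : Type) [Group H], Prop} (hF : IsForm G F)
    {P A B : Type} [Group P] [Group A] [Group B] (a : P →* A) (b : P →* B)
    (ha : Function.Surjective a) (hb : Function.Surjective b) (hA : F A) (hB : F B)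
    (hab : a.ker ⊓ b.ker = ⊥) : F P := by
  have h1 : F (P ⧸ a.ker) := hF.2.1 A _
    (QuotientGroup.quotientKerEquivOfSurjective a ha).symm.toMonoidHom
    (QuotientGroup.quotientKerEquivOfSurjective a ha).symm.surjective hA
  have h2 : F (P ⧸ b.ker) := hF.2.1 B _
    (QuotientGroup.quotientKerEquivOfSurjective b hb).symm.toMonoidHom
    (QuotientGroup.quotientKerEquivOfSurjective b hb).symm.surjective hB
  have h3 := hF.2.2 P a.ker b.ker h1 h2
  have h4 : ∀ (N : Subgroup P) [N.Normal], N = ⊥ → F (P ⧸ N) → F P := by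
    intro N _ hN hFN
    subst hN
    exact hF.2.1 _ P (QuotientGroup.quotientBot (G := P)).toMonoidHom
      (QuotientGroup.quotientBot (G := P)).surjective hFN
  exact h4 _ hab h3

variable {G : Type} [Group G] {Z L : Subgroup G} [Z.Normal] [L.Normal]

/-- elements of `ker ψ` commute with `ι L`, so conjugation on `ι L` is determined by `ψ` -/
lemma equivariance (h : GData G Z L) {H : Type} [Group H] (ψ : H →* G ⧸ Z)
    (ι : L →* H) (hcompat : ∀ l : L, ψ (ι l) = ((l : G) : G ⧸ Z))
    (hn : ι.range.Normal) (hc : ∀ x ∈ ψ.ker, ∀ l, x * ι l = ι l * x)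
    (x : H) (g : G) (hxg : ψ x = (g : G ⧸ Z)) (l : L) :
    x * ι l * x⁻¹ = ι ⟨g * l * g⁻¹, (inferInstance : L.Normal).conj_mem l l.2 g⟩ := by
  have hLp : commutator L = ⊤ := by
    have := h.perf
    rw [← Subgroup.isPerfect_iff] at this
    exact this.commutator_eq_top
  let f : L →* H := (MulAut.conj x).toMonoidHom.comp ι
  let g' : L →* H := ι.comp (MulAut.conjNormal g).toMonoidHom
  have hfg : ∀ y, (f y)⁻¹ * g' y ∈ ψ.ker := by
    intro y
    rw [MonoidHom.mem_ker]
    show ψ ((x * ι y * x⁻¹)⁻¹ * ι (MulAut.conjNormal g y)) = 1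
    rw [map_mul, map_inv, map_mul, map_mul, map_inv, hcompat, hcompat, hxg, MulAut.conjNormal_apply,
      QuotientGroup.mk_mul, QuotientGroup.mk_mul, QuotientGroup.mk_inv]
    group
  have hrange : ∀ y, ∃ y', f y = ι y' := by
    intro y
    have : x * ι y * x⁻¹ ∈ ι.range := hn.conj_mem _ ⟨y, rfl⟩ x
    obtain ⟨y', hy'⟩ := this
    exact ⟨y', hy'.symm⟩
  have key : f = g' := by
    apply hom_eq_of_perfect hLp
    · intro y z
      obtain ⟨z', hz'⟩ := hrange z
      rw [hz']
      exact hc _ (hfg y) z'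
    · intro y z
      exact hc _ (hfg y) _
  have := congrArg (fun q : L →* H => q l) key
  exact this


/-- The reduction step: `H` is obtained from smaller members of the formation. -/
theorem reduction [Finite G] (h : GData G Z L) (a : G ≃* G) (ha : ∀ g, g⁻¹ * a g ∈ L)
    (haZ : ∀ z ∈ Z, a z = z → z = 1)
    (F F' : ∀ (H : Type) [Group H], Prop) (hF : IsForm G F) (hF' : IsForm G F')
    {H : Type} [Group H] [Finite H] (ψ : H →* G ⧸ Z) (hψ : Function.Surjective ψ)
    (ι : L →* H) (hι : Function.Injective ι) (hcompat : ∀ l : L, ψ (ι l) = ((l : G) : G ⧸ Z))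
    (hn : ι.range.Normal) (hc : ∀ x ∈ ψ.ker, ∀ l, x * ι l = ι l * x)
    (hH : F H)
    (ih : ∀ (Y : Type) [Group Y] [Finite Y], F Y →
      (Nat.card Y ≤ Nat.card G ∨ Nat.card Y < Nat.card H) → F' Y) : F' H := by
  -- `a` preserves `L` and `Z`
  have haL : ∀ g ∈ L, a g ∈ L := by
    intro g hg
    have := L.mul_mem hg (ha g)
    simpa using this
  have haZZ : ∀ z ∈ Z, a z ∈ Z := by
    intro z hz
    apply h.cent
    intro l _
    have := h.Zcomm hz (a.symm l)
    have h2 := congrArg a this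
    simp only [map_mul, MulEquiv.apply_symm_apply] at h2
    exact h2.symm
  let ab : G ⧸ Z →* G ⧸ Z := QuotientGroup.map Z Z a.toMonoidHom haZZ
  have hab : ∀ g : G, ab (g : G ⧸ Z) = ((a g : G) : G ⧸ Z) := fun g => rfl
  let K : Subgroup H := ι.range
  have hK : K.Normal := hn
  let P : Subgroup (H × H) :=
    MonoidHom.eqLocus (ψ.comp (MonoidHom.snd H H)) (ab.comp (ψ.comp (MonoidHom.fst H H))) ⊓
    MonoidHom.eqLocus ((QuotientGroup.mk' K).comp (MonoidHom.fst H H))
      ((QuotientGroup.mk' K).comp (MonoidHom.snd H H))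
  have memP : ∀ x : H × H, x ∈ P ↔ ψ x.2 = ab (ψ x.1) ∧ x.1⁻¹ * x.2 ∈ K := by
    intro x
    refine and_congr Iff.rfl ?_
    exact QuotientGroup.eq
  let p1 : P →* H := (MonoidHom.fst H H).comp P.subtype
  let p2 : P →* H := (MonoidHom.snd H H).comp P.subtype
  have hp1 : Function.Surjective p1 := by
    intro x
    obtain ⟨g, hg⟩ := QuotientGroup.mk_surjective (ψ x)
    let l : L := ⟨g⁻¹ * a g, ha g⟩
    have hx : (x, x * ι l) ∈ P := by
      rw [memP]
      refine ⟨?_, ⟨l, by simp⟩⟩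
      show ψ (x * ι l) = ab (ψ x)
      rw [map_mul, hcompat, ← hg, hab, ← QuotientGroup.mk_mul]
      congr 1
      show g * (g⁻¹ * a g) = a g
      group
    exact ⟨⟨_, hx⟩, rfl⟩
  have hp2 : Function.Surjective p2 := by
    intro x
    obtain ⟨g', hg'⟩ := QuotientGroup.mk_surjective (ψ x)
    obtain ⟨g, rfl⟩ := a.surjective g'
    let l : L := ⟨g⁻¹ * a g, ha g⟩
    have hx : (x * (ι l)⁻¹, x) ∈ P := by
      rw [memP]
      refine ⟨?_, ⟨l, by simp⟩⟩
      show ψ x = ab (ψ (x * (ι l)⁻¹))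
      rw [map_mul, map_inv, hcompat, ← hg', ← QuotientGroup.mk_inv, ← QuotientGroup.mk_mul, hab]
      congr 1
      show a g = a (a g * (g⁻¹ * a g)⁻¹)
      congr 1
      group
    exact ⟨⟨_, hx⟩, rfl⟩
  have hFP : F P := by
    apply hF.subdirect p1 p2 hp1 hp2 hH hH
    rw [eq_bot_iff]
    rintro x ⟨h1, h2⟩
    rw [mem_bot]
    apply Subtype.ext
    exact Prod.ext h1 h2
  -- the diagonal subgroup
  let D : Subgroup P := MonoidHom.eqLocus p1 p2 ⊓ (ψ.comp p1).ker
  have memD : ∀ x : P, x ∈ D ↔ x.1.1 = x.1.2 ∧ ψ x.1.1 = 1 := fun x => Iff.rfl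
  have hDn : D.Normal := by
    constructor
    intro d hd x
    rw [memD] at hd ⊢
    obtain ⟨h1, h2⟩ := hd
    have hx := ((memP _).1 x.2).2
    obtain ⟨l, hl⟩ := hx
    constructor
    · show x.1.1 * d.1.1 * x.1.1⁻¹ = x.1.2 * d.1.2 * x.1.2⁻¹
      have h3 : x.1.2 = x.1.1 * ι l := by rw [hl]; group
      rw [← h1, h3]
      have h4 := hc d.1.1 h2 l
      calc x.1.1 * d.1.1 * x.1.1⁻¹ = x.1.1 * (d.1.1 * ι l) * (ι l)⁻¹ * x.1.1⁻¹ := by group
        _ = x.1.1 * (ι l * d.1.1) * (ι l)⁻¹ * x.1.1⁻¹ := by rw [h4]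
        _ = _ := by group
    · show ψ (x.1.1 * d.1.1 * x.1.1⁻¹) = 1
      rw [map_mul, map_mul, h2, map_inv]
      group
  -- the twisted component
  have hq : ∀ l : L, ((ι l, ι ⟨a l, haL _ l.2⟩) : H × H) ∈ P := by
    intro l
    rw [memP]
    refine ⟨?_, ⟨l⁻¹ * ⟨a l, haL _ l.2⟩, by simp⟩⟩
    show ψ (ι ⟨a l, haL _ l.2⟩) = ab (ψ (ι l))
    rw [hcompat, hcompat, hab]
  let q : L →* P :=
    { toFun := fun l => ⟨_, hq l⟩
      map_one' := by
        apply Subtype.ext
        apply Prod.ext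
        · show ι 1 = 1
          exact map_one ι
        · show ι ⟨a 1, _⟩ = 1
          rw [← map_one ι]
          congr 1
          apply Subtype.ext
          exact map_one a
      map_mul' := by
        intro x y
        apply Subtype.ext
        apply Prod.ext
        · exact map_mul ι x y
        · show ι ⟨a (x * y), _⟩ = ι ⟨a x, _⟩ * ι ⟨a y, _⟩
          rw [← map_mul ι]
          congr 1
          apply Subtype.ext
          exact map_mul a _ _ }
  have hqinj : Function.Injective q := by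
    intro x y hxy
    have := congrArg (fun z : P => z.1.1) hxy
    exact hι this
  let Q : Subgroup P := q.range
  have hQn : Q.Normal := by
    constructor
    rintro _ ⟨l, rfl⟩ x
    obtain ⟨g, hg⟩ := QuotientGroup.mk_surjective (ψ x.1.1)
    have hx2 : ψ x.1.2 = ((a g : G) : G ⧸ Z) := by
      rw [((memP _).1 x.2).1, ← hg, hab]
    have e1 := equivariance h ψ ι hcompat hn hc x.1.1 g hg.symm l
    have e2 := equivariance h ψ ι hcompat hn hc x.1.2 (a g) hx2 ⟨a l, haL _ l.2⟩
    refine ⟨⟨g * l * g⁻¹, (inferInstance : L.Normal).conj_mem l l.2 g⟩, ?_⟩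
    apply Subtype.ext
    apply Prod.ext
    · exact e1.symm
    · refine Eq.trans ?_ e2.symm
      show ι ⟨a (g * l * g⁻¹), _⟩ = ι ⟨a g * a l * (a g)⁻¹, _⟩
      congr 1
      apply Subtype.ext
      show a (g * l * g⁻¹) = a g * a l * (a g)⁻¹
      simp
  have hDQ : D ⊓ Q = ⊥ := by
    rw [eq_bot_iff]
    rintro _ ⟨hD, ⟨l, rfl⟩⟩
    obtain ⟨h1, h2⟩ := (memD _).1 hD
    have h3 : (l : G) ∈ Z := by
      rw [← QuotientGroup.eq_one_iff, ← hcompat]
      exact h2
    have h4 : l = ⟨a l, haL _ l.2⟩ := hι h1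
    have h5 : (l : G) = 1 := haZ l h3 (congrArg Subtype.val h4).symm
    have h6 : l = 1 := Subtype.ext h5
    rw [h6, mem_bot, map_one]
  -- cardinalities
  have hZpos : 0 < Nat.card Z := Nat.card_pos
  have hker1 : Nat.card p1.ker ≤ Nat.card Z := by
    let f : Z → p1.ker := fun z => ⟨⟨(1, ι ⟨z, h.ZL z.2⟩), by
      rw [memP]
      refine ⟨?_, ⟨⟨z, h.ZL z.2⟩, by simp⟩⟩
      show ψ (ι ⟨z, h.ZL z.2⟩) = ab (ψ 1)
      rw [hcompat, map_one, map_one]
      exact (QuotientGroup.eq_one_iff _).2 z.2⟩, rfl⟩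
    have hf : Function.Surjective f := by
      rintro ⟨⟨⟨x, y⟩, hxy⟩, hx⟩
      have hx1 : x = 1 := hx
      subst hx1
      obtain ⟨h1, ⟨l, hl⟩⟩ := (memP _).1 hxy
      have hl' : ι l = y := by simpa using hl
      have hlZ : (l : G) ∈ Z := by
        rw [← QuotientGroup.eq_one_iff, ← hcompat, hl']
        simpa using h1
      refine ⟨⟨l, hlZ⟩, ?_⟩
      apply Subtype.ext
      apply Subtype.ext
      apply Prod.ext
      · rfl
      · exact hl'
    exact Nat.card_le_card_of_surjective f hf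
  have hcardP : Nat.card P ≤ Nat.card H * Nat.card Z := by
    rw [Subgroup.card_eq_card_quotient_mul_card_subgroup p1.ker,
      Nat.card_congr (QuotientGroup.quotientKerEquivOfSurjective p1 hp1).toEquiv]
    exact Nat.mul_le_mul_left _ hker1
  have hcardH : Nat.card H = Nat.card (G ⧸ Z) * Nat.card ψ.ker := by
    rw [Subgroup.card_eq_card_quotient_mul_card_subgroup ψ.ker,
      Nat.card_congr (QuotientGroup.quotientKerEquivOfSurjective ψ hψ).toEquiv]
  have hcardG : Nat.card G = Nat.card (G ⧸ Z) * Nat.card Z :=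
    Subgroup.card_eq_card_quotient_mul_card_subgroup Z
  have hcardD : Nat.card ψ.ker ≤ Nat.card D := by
    let f : ψ.ker → D := fun c => ⟨⟨(c, c), by
      rw [memP]
      refine ⟨?_, ⟨1, by simp⟩⟩
      show ψ c = ab (ψ c)
      rw [show ψ c = 1 from c.2, map_one]⟩, rfl, c.2⟩
    have hf : Function.Injective f := by
      intro x y hxy
      have := congrArg (fun z : D => z.1.1.1) hxy
      exact Subtype.ext this
    exact Nat.card_le_card_of_injective f hf
  have hcardQ : Nat.card L = Nat.card Q :=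
    Nat.card_congr (MonoidHom.ofInjective hqinj).toEquiv
  have hZL : Nat.card Z < Nat.card L := by
    by_contra hlt
    have h1 : Z = L := Subgroup.eq_of_le_of_card_ge h.ZL (by omega)
    exact h.LZ h1.ge
  have hPD : Nat.card (P ⧸ D) ≤ Nat.card G := by
    have h1 := Subgroup.card_eq_card_quotient_mul_card_subgroup D
    have h2 : Nat.card (P ⧸ D) * Nat.card ψ.ker ≤ Nat.card G * Nat.card ψ.ker := by
      calc Nat.card (P ⧸ D) * Nat.card ψ.ker ≤ Nat.card (P ⧸ D) * Nat.card D :=
            Nat.mul_le_mul_left _ hcardD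
        _ = Nat.card P := h1.symm
        _ ≤ Nat.card H * Nat.card Z := hcardP
        _ = Nat.card G * Nat.card ψ.ker := by rw [hcardH, hcardG]; ring
    exact Nat.le_of_mul_le_mul_right h2 Nat.card_pos
  have hPQ : Nat.card (P ⧸ Q) < Nat.card H := by
    have h1 := Subgroup.card_eq_card_quotient_mul_card_subgroup Q
    by_contra hlt
    have h2 : Nat.card H * Nat.card L ≤ Nat.card H * Nat.card Z := by
      calc Nat.card H * Nat.card L ≤ Nat.card (P ⧸ Q) * Nat.card Q := by
            rw [← hcardQ]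
            exact Nat.mul_le_mul_right _ (by omega)
        _ = Nat.card P := h1.symm
        _ ≤ _ := hcardP
    have h3 := Nat.le_of_mul_le_mul_left h2 Nat.card_pos
    omega
  have hD' : F' (P ⧸ D) := by
    apply ih _ _ (Or.inl hPD)
    exact hF.2.1 P _ (QuotientGroup.mk' D) (QuotientGroup.mk'_surjective D) hFP
  have hQ' : F' (P ⧸ Q) := by
    apply ih _ _ (Or.inr hPQ)
    exact hF.2.1 P _ (QuotientGroup.mk' Q) (QuotientGroup.mk'_surjective Q) hFP
  have hP' : F' P := by
    apply hF'.subdirect (QuotientGroup.mk' D) (QuotientGroup.mk' Q)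
      (QuotientGroup.mk'_surjective D) (QuotientGroup.mk'_surjective Q) hD' hQ'
    rw [QuotientGroup.ker_mk', QuotientGroup.ker_mk']
    exact hDQ
  exact hF'.2.1 P H p1 hp1 hP'

end Pool.Agent.Helper554.Form
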