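import Mathlib
import Pool.Agent.Helper554.Form.C3
set_option autoImplicit false
namespace Pool.Agent.Helper554.Form

open Subgroup
open scoped commutatorElement

lemma cyclic_of_mono' (H : Type) [Group H] [Finite H] (hcomm : ∀ x y : H, x * y = y * x)
    (hm : ∀ A B : Subgroup H, A ≠ ⊥ → B ≠ ⊥ → A ⊓ B ≠ ⊥) : IsCyclic H := by
  let _ : CommGroup H := { ‹Group H› with mul_comm := hcomm }
  exact cyclic_of_mono H hm

lemma card_quot_lt {H : Type} [Group H] [Finite H] (N : Subgroup H) (hN : N ≠ ⊥) :
    Nat.card (H ⧸ N) < Nat.card H := by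
  have h1 := Subgroup.card_eq_card_quotient_mul_card_subgroup N
  have h2 : 1 < Nat.card N := by
    rw [Subgroup.one_lt_card_iff_ne_bot]
    exact hN
  have h3 : 0 < Nat.card (H ⧸ N) := Nat.card_pos
  rw [h1]
  nlinarith

variable {G : Type} [Group G] {Z L : Subgroup G} [Z.Normal] [L.Normal]

lemma split_step (F F' : ∀ (H : Type) [Group H], Prop) (hF : IsForm G F) (hF' : IsForm G F')
    {H : Type} [Group H] [Finite H] (hH : F H)
    (ih : ∀ (Y : Type) [Group Y] [Finite Y], F Y → Nat.card Y < Nat.card H → F' Y)
    (A B : Subgroup H) (hAn : A.Normal) (hBn : B.Normal) (hA : A ≠ ⊥) (hB : B ≠ ⊥)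
    (hAB : A ⊓ B = ⊥) : F' H := by
  have h1 : F' (H ⧸ A) := ih _ (hF.2.1 H _ (QuotientGroup.mk' A) (QuotientGroup.mk'_surjective A) hH)
    (card_quot_lt A hA)
  have h2 : F' (H ⧸ B) := ih _ (hF.2.1 H _ (QuotientGroup.mk' B) (QuotientGroup.mk'_surjective B) hH)
    (card_quot_lt B hB)
  apply hF'.subdirect (QuotientGroup.mk' A) (QuotientGroup.mk' B)
      (QuotientGroup.mk'_surjective A) (QuotientGroup.mk'_surjective B) h1 h2
  rw [QuotientGroup.ker_mk', QuotientGroup.ker_mk']
  exact hAB

theorem main_step [Finite G] (h : GData G Z L) (a : G ≃* G) (ha : ∀ g, g⁻¹ * a g ∈ L)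
    (haZ : ∀ z ∈ Z, a z = z → z = 1)
    (F F' : ∀ (H : Type) [Group H], Prop) (hF : IsForm G F) (hF' : IsForm G F')
    (hsmall : ∀ (Y : Type) [Group Y], Nat.card Y ≤ Nat.card G → F Y → F' Y) (m : ℕ) :
    ∀ (H : Type) [Group H], Nat.card H ≤ m → F H → F' H := by
  induction m with
  | zero =>
    intro H _ hm hH
    obtain ⟨n, S, hS, f, hf⟩ := hF.1 H hH
    have : Finite H := Finite.of_surjective f hf
    have : 0 < Nat.card H := Nat.card_pos
    omega
  | succ m IH =>
    intro H _ hm hH
    obtain ⟨n, S, hS, f, hf⟩ := hF.1 H hH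
    have hfin : Finite H := Finite.of_surjective f hf
    have ih : ∀ (Y : Type) [Group Y] [Finite Y], F Y → Nat.card Y < Nat.card H → F' Y := by
      intro Y _ _ hY hYc
      exact IH Y (by omega) hY
    let p : Fin n → S →* G := fun i => (Pi.evalMonoidHom (fun _ => G) i).comp S.subtype
    have hsurj : ∀ i, Function.Surjective (p i) := by
      intro i g
      obtain ⟨s, hs, he⟩ := hS i g
      exact ⟨⟨s, hs⟩, he⟩
    choose R hRn hRmap hRperf hRmin using fun i => exists_R h (p i) (hsurj i)
    have hs : SData G Z L S p R :=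
      { surj := hsurj
        inj := by
          intro s hs
          apply Subtype.ext
          funext i
          exact hs i
        Rn := hRn
        Rmap := hRmap
        Rperf := hRperf
        Rmin := hRmin }
    by_cases hcase : ∃ i, ¬ R i ≤ f.ker
    · obtain ⟨i, hi⟩ := hcase
      have hfk : f.ker ≤ Z.comap (p i) := by
        rcases hRmin i f.ker inferInstance with h1 | h1
        · exact absurd h1 hi
        · exact h1
      -- the isomorphism between `R i` and `L`
      let ρ : R i →* L := ((p i).comp (R i).subtype).codRestrict L (by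
        intro x
        rw [← hRmap i]
        exact ⟨x, x.2, rfl⟩)
      have hρi : Function.Injective ρ := by
        rw [injective_iff_map_eq_one]
        intro x hx
        apply Subtype.ext
        exact hs.R_inj h i x x.2 (congrArg Subtype.val hx)
      have hρs : Function.Surjective ρ := by
        rintro ⟨l, hl⟩
        have hl' := hl
        rw [← hRmap i] at hl'
        obtain ⟨x, hx, he⟩ := hl'
        exact ⟨⟨x, hx⟩, Subtype.ext he⟩
      let e : R i ≃* L := MulEquiv.ofBijective ρ ⟨hρi, hρs⟩
      let ιS : L →* S := (R i).subtype.comp e.symm.toMonoidHom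
      have hιS : ∀ l : L, p i (ιS l) = l := by
        intro l
        exact congrArg Subtype.val (e.apply_symm_apply l)
      have hιR : ∀ l : L, ιS l ∈ R i := fun l => (e.symm l).2
      have hιR' : ∀ r ∈ R i, ∃ l : L, ιS l = r := by
        intro r hr
        refine ⟨e ⟨r, hr⟩, ?_⟩
        exact congrArg Subtype.val (e.symm_apply_apply ⟨r, hr⟩)
      let ι : L →* H := f.comp ιS
      have hιrange : ι.range = (R i).map f := by
        ext x
        constructor
        · rintro ⟨l, rfl⟩
          exact ⟨ιS l, hιR l, rfl⟩
        · rintro ⟨r, hr, rfl⟩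
          obtain ⟨l, hl⟩ := hιR' r hr
          exact ⟨l, congrArg f hl⟩
      have hιn : ι.range.Normal := by
        rw [hιrange]
        exact (hRn i).map f hf
      -- the map to `G ⧸ Z`
      let ψ0 : {g : S →* G ⧸ Z // f.ker ≤ g.ker} := ⟨(QuotientGroup.mk' Z).comp (p i), by
        intro x hx
        rw [MonoidHom.mem_ker]
        exact (QuotientGroup.eq_one_iff _).2 (hfk hx)⟩
      let ψ : H →* G ⧸ Z := f.liftOfRightInverse (Function.surjInv hf)
        (Function.rightInverse_surjInv hf) ψ0
      have hψ : ∀ s, ψ (f s) = ((p i s : G) : G ⧸ Z) := fun s =>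
        f.liftOfRightInverse_comp_apply _ (Function.rightInverse_surjInv hf) ψ0 s
      have hψs : Function.Surjective ψ := by
        intro x
        obtain ⟨g, rfl⟩ := QuotientGroup.mk_surjective x
        obtain ⟨s, rfl⟩ := hsurj i g
        exact ⟨f s, hψ s⟩
      have hcompat : ∀ l : L, ψ (ι l) = ((l : G) : G ⧸ Z) := by
        intro l
        show ψ (f (ιS l)) = _
        rw [hψ, hιS]
      have hc : ∀ x ∈ ψ.ker, ∀ l, x * ι l = ι l * x := by
        intro x hx l
        obtain ⟨s, rfl⟩ := hf x
        rw [MonoidHom.mem_ker, hψ, QuotientGroup.eq_one_iff] at hx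
        show f s * f (ιS l) = f (ιS l) * f s
        rw [← map_mul, ← map_mul, hs.C_comm h i s (ιS l) hx (hιR l)]
      by_cases hinj : Function.Injective ι
      · apply reduction h a ha haZ F F' hF hF' ψ hψs ι hinj hcompat hιn hc hH
        intro Y _ _ hY hYc
        rcases hYc with h1 | h1
        · exact hsmall Y h1 hY
        · exact ih Y hY h1
      · -- then `ι` kills `Z`
        have hkerZ : ∀ l : L, ι l = 1 → (l : G) ∈ Z := by
          intro l hl
          rw [← QuotientGroup.eq_one_iff, ← hcompat, hl, map_one]
        have hZker : ∀ l : L, (l : G) ∈ Z → ι l = 1 := by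
          rw [injective_iff_map_eq_one] at hinj
          push Not at hinj
          obtain ⟨l0, hl0, hl0'⟩ := hinj
          have hZp : Fact (Nat.card Z).Prime := ⟨h.Zp⟩
          let z0 : Z := ⟨l0, hkerZ l0 hl0⟩
          have hz0 : z0 ≠ 1 := by
            intro h1
            apply hl0'
            have h2 : (z0 : G) = 1 := by rw [h1]; rfl
            exact Subtype.ext h2
          intro l hl
          have hmem : (⟨l, hl⟩ : Z) ∈ Subgroup.zpowers z0 :=
            mem_zpowers_of_prime_card (p := Nat.card Z) rfl hz0
          obtain ⟨k, hk⟩ := Subgroup.mem_zpowers_iff.1 hmem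
          have hk' : l = l0 ^ k := by
            apply Subtype.ext
            have := congrArg Subtype.val hk
            simpa using this.symm
          rw [hk', map_zpow, hl0, one_zpow]
        have hAB : ι.range ⊓ ψ.ker = ⊥ := by
          rw [eq_bot_iff]
          rintro _ ⟨⟨l, rfl⟩, hl⟩
          rw [mem_bot]
          apply hZker
          rw [← QuotientGroup.eq_one_iff, ← hcompat]
          exact hl
        have hAne : ι.range ≠ ⊥ := by
          intro h1
          apply hi
          rw [hιrange, Subgroup.map_eq_bot_iff] at h1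
          exact h1
        by_cases hBne : ψ.ker = ⊥
        · apply hsmall H _ hH
          have h1 : Function.Injective ψ := (MonoidHom.ker_eq_bot_iff ψ).1 hBne
          calc Nat.card H ≤ Nat.card (G ⧸ Z) := Nat.card_le_card_of_injective ψ h1
            _ ≤ Nat.card G := Nat.card_le_card_of_surjective _ QuotientGroup.mk_surjective
        · exact split_step F F' hF hF' hH ih ι.range ψ.ker hιn inferInstance hAne hBne hAB
    · push Not at hcase
      have hle : (⨆ i, R i) ≤ f.ker := iSup_le hcase
      have hcomm : ∀ x y : H, x * y = y * x := by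
        intro x y
        obtain ⟨s, rfl⟩ := hf x
        obtain ⟨t, rfl⟩ := hf y
        rw [← commutatorElement_eq_one_iff_mul_comm, ← map_commutatorElement]
        exact hle (hs.comm_mem h s t)
      by_cases hm' : ∀ A B : Subgroup H, A ≠ ⊥ → B ≠ ⊥ → A ⊓ B ≠ ⊥
      · have hcyc := cyclic_of_mono' H hcomm hm'
        apply hsmall H _ hH
        obtain ⟨x, hx⟩ := hcyc.exists_generator
        obtain ⟨s, rfl⟩ := hf x
        rw [← orderOf_eq_card_of_forall_mem_zpowers hx]
        apply orderOf_le_of_pow_eq_one Nat.card_pos
        rw [← map_pow]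
        have : s ^ Nat.card G = 1 := by
          apply Subtype.ext
          funext i
          show (s.1 i) ^ Nat.card G = 1
          exact pow_card_eq_one'
        rw [this, map_one]
      · push Not at hm'
        obtain ⟨A, B, hA, hB, hAB⟩ := hm'
        have hn : ∀ A : Subgroup H, A.Normal := by
          intro A
          constructor
          intro x hx g
          rw [hcomm g x]
          simpa using hx
        exact split_step F F' hF hF' hH ih A B (hn A) (hn B) hA hB hAB

/-- a copy of `Fin n` without algebraic structure -/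
structure Car (n : ℕ) where
  val : Fin n

def carEquiv (n : ℕ) : Car n ≃ Fin n where
  toFun x := x.val
  invFun x := ⟨x⟩
  left_inv _ := rfl
  right_inv _ := rfl

instance (n : ℕ) : Finite (Car n) := Finite.of_equiv _ (carEquiv n).symm

/-- The formation generated by `G` has only finitely many subformations. -/
theorem finite_forms [Finite G] (h : GData G Z L) (a : G ≃* G) (ha : ∀ g, g⁻¹ * a g ∈ L)
    (haZ : ∀ z ∈ Z, a z = z → z = 1) :
    Set.Finite {F : ∀ (H : Type) [Group H], Prop | IsForm G F} := by
  classical
  let T := Σ n : Fin (Nat.card G + 1), Group (Car n)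
  have hT : Finite T := by
    have : ∀ n : Fin (Nat.card G + 1), Finite (Group (Car n)) := by
      intro n
      let φ : Group (Car n) → (Car n → Car n → Car n) := fun g x y => g.mul x y
      apply Finite.of_injective φ
      intro g g' hg
      apply Group.ext
      funext x y
      exact congrFun (congrFun hg x) y
    infer_instance
  let Φ : (∀ (H : Type) [Group H], Prop) → Set T := fun F => {t | @F (Car t.1) t.2}
  apply Set.Finite.of_finite_image (f := Φ) (Set.toFinite _)
  have key : ∀ F F' : (∀ (H : Type) [Group H], Prop), IsForm G F → IsForm G F' → Φ F = Φ F' →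
      ∀ (H : Type) [Group H], F H → F' H := by
    intro F F' hF hF' hΦ H _ hH
    apply main_step h a ha haZ F F' hF hF' _ (Nat.card H) H le_rfl hH
    intro Y _ hYc hY
    obtain ⟨n, S, hS, f, hf⟩ := hF.1 Y hY
    have hfin : Finite Y := Finite.of_surjective f hf
    let e : Y ≃ Car (Nat.card Y) := (Finite.equivFin Y).trans (carEquiv _).symm
    let g : Group (Car (Nat.card Y)) := e.symm.group
    let em : Y ≃* Car (Nat.card Y) := e.symm.mulEquiv.symm
    have h1 : F (Car (Nat.card Y)) := hF.2.1 Y _ em.toMonoidHom em.surjective hY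
    have h2 : (⟨⟨Nat.card Y, by omega⟩, g⟩ : T) ∈ Φ F := h1
    rw [hΦ] at h2
    have h3 : F' (Car (Nat.card Y)) := h2
    exact hF'.2.1 _ Y em.symm.toMonoidHom em.symm.surjective h3
  intro F hF F' hF' hΦ
  funext H _
  apply propext
  exact ⟨key F F' hF hF' hΦ H, key F' F hF' hF hΦ.symm H⟩

end Pool.Agent.Helper554.Form
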