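import Mathlib
import Pool.Agent.Helper554.Form.B1
import Pool.Agent.Helper554.Form.B2
import Pool.Agent.Helper554.Form.C4
set_option autoImplicit false
namespace Pool.Agent.Helper554.Form

open Subgroup Matrix
open scoped commutatorElement

section field

variable (F : Type) [Field F] [Finite F] [CharP F 2]

/-- entrywise squaring, as an automorphism of `SL(3, F)` -/
noncomputable def fr : MulAut (SpecialLinearGroup (Fin 3) F) :=
  MulEquiv.ofBijective (SpecialLinearGroup.map (n := Fin 3) (frobenius F 2)) (by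
    have : Function.Injective (SpecialLinearGroup.map (n := Fin 3) (frobenius F 2)) := by
      intro A B h
      apply Matrix.SpecialLinearGroup.ext
      intro i j
      have h1 := congrArg (fun M : SpecialLinearGroup (Fin 3) F => M i j) h
      exact frobenius_inj F 2 h1
    exact Finite.injective_iff_bijective.1 this)

variable {F}

lemma fr_apply (A : SpecialLinearGroup (Fin 3) F) (i j : Fin 3) : (fr F A) i j = (A i j) ^ 2 := rfl

lemma fr_pow_apply (k : ℕ) (A : SpecialLinearGroup (Fin 3) F) (i j : Fin 3) :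
    ((fr F ^ k : MulAut _) A) i j = (A i j) ^ (2 ^ k) := by
  induction k generalizing A with
  | zero => simp
  | succ k ih =>
    rw [pow_succ, MulAut.mul_apply, ih, fr_apply, ← pow_mul]
    congr 1
    ring

variable (F) in
/-- entrywise `x ↦ x ^ 4` -/
noncomputable def sg : MulAut (SpecialLinearGroup (Fin 3) F) := fr F ^ 2

lemma sg_apply (A : SpecialLinearGroup (Fin 3) F) (i j : Fin 3) : (sg F A) i j = (A i j) ^ 4 := by
  rw [sg, fr_pow_apply]
  norm_num

lemma sg_trace (A : SpecialLinearGroup (Fin 3) F) :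
    trace (sg F A : Matrix (Fin 3) (Fin 3) F) = (trace (A : Matrix (Fin 3) (Fin 3) F)) ^ 4 := by
  have h : ∀ x y : F, (x + y) ^ 4 = x ^ 4 + y ^ 4 := by
    intro x y
    have h1 : ∀ x y : F, (x + y) ^ 2 = x ^ 2 + y ^ 2 := fun x y => add_pow_char x y 2
    calc (x + y) ^ 4 = ((x + y) ^ 2) ^ 2 := by ring
      _ = x ^ 4 + y ^ 4 := by rw [h1, h1]; ring
  simp only [Matrix.trace, Fin.sum_univ_three, Matrix.diag_apply, sg_apply]
  rw [h, h]

/-- a matrix of determinant one with given trace -/
def trm (t : F) : SpecialLinearGroup (Fin 3) F :=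
  ⟨!![t, 1, 0; 0, 0, 1; 1, 0, 0], by simp [Matrix.det_fin_three]⟩

lemma trm_trace (t : F) : trace (trm t : Matrix (Fin 3) (Fin 3) F) = t := by
  simp [trm, Matrix.trace, Fin.sum_univ_three]

lemma exists_not_cube (hF : Nat.card F = 64) : ∃ t : F, t ^ 4 ≠ t := by
  obtain ⟨g, hg⟩ := IsCyclic.exists_generator (α := Fˣ)
  have h1 : orderOf g = 63 := by
    rw [orderOf_eq_card_of_forall_mem_zpowers hg, Nat.card_units, hF]
  refine ⟨g, ?_⟩
  intro h
  have h2 : g ^ 3 = 1 := by
    apply Units.ext
    have hg0 : (g : F) ≠ 0 := g.ne_zero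
    have : (g : F) * ((g : F) ^ 3) = (g : F) * 1 := by
      rw [mul_one, ← pow_succ', h]
    push_cast
    exact mul_left_cancel₀ hg0 this
  have h3 := orderOf_dvd_of_pow_eq_one h2
  rw [h1] at h3
  omega

lemma sg_cube (hF : Nat.card F = 64) : (sg F) ^ 3 = 1 := by
  have : Fintype F := Fintype.ofFinite F
  ext A i j
  rw [sg, ← pow_mul, fr_pow_apply]
  norm_num
  have h1 : Fintype.card F = 64 := by rw [← Nat.card_eq_fintype_card, hF]
  have := FiniteField.pow_card (A i j)
  rw [h1] at this
  exact this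

lemma sg_ne_one (hF : Nat.card F = 64) : sg F ≠ 1 := by
  intro h
  obtain ⟨t, ht⟩ := exists_not_cube hF
  apply ht
  have h1 := sg_trace (trm t)
  rw [h, MulAut.one_apply, trm_trace] at h1
  exact h1.symm

lemma orderOf_sg (hF : Nat.card F = 64) : orderOf (sg F) = 3 := by
  have : Fact (Nat.Prime 3) := ⟨by norm_num⟩
  exact orderOf_eq_prime (sg_cube hF) (sg_ne_one hF)

/-- central matrices are scalar with cube one -/
lemma center_scalar {A : SpecialLinearGroup (Fin 3) F} (hA : A ∈ center (SpecialLinearGroup (Fin 3) F)) :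
    ∃ c : F, c ^ 3 = 1 ∧ ∀ i j, A i j = if i = j then c else 0 := by
  obtain ⟨c, hc, h⟩ := Matrix.SpecialLinearGroup.mem_center_iff.1 hA
  refine ⟨c, by simpa using hc, ?_⟩
  intro i j
  have := congrFun (congrFun h i) j
  rw [← this, Matrix.scalar_apply, Matrix.diagonal_apply]

lemma sg_center {A : SpecialLinearGroup (Fin 3) F} (hA : A ∈ center (SpecialLinearGroup (Fin 3) F)) :
    sg F A = A := by
  obtain ⟨c, hc, h⟩ := center_scalar hA
  apply Matrix.SpecialLinearGroup.ext
  intro i j
  rw [sg_apply, h]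
  split_ifs
  · calc c ^ 4 = c ^ 3 * c := by ring
      _ = c := by rw [hc, one_mul]
  · norm_num

lemma fr_center {A : SpecialLinearGroup (Fin 3) F} (hA : A ∈ center (SpecialLinearGroup (Fin 3) F))
    (h1 : fr F A = A) : A = 1 := by
  obtain ⟨c, hc, h⟩ := center_scalar hA
  have h2 := congrArg (fun M : SpecialLinearGroup (Fin 3) F => M 0 0) h1
  simp only [fr_apply, h, if_true] at h2
  have hc0 : c ≠ 0 := by
    rintro rfl
    norm_num at hc
  have hc1 : c = 1 := by
    have : c * c = c * 1 := by rw [mul_one, ← sq]; exact h2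
    exact mul_left_cancel₀ hc0 this
  apply Matrix.SpecialLinearGroup.ext
  intro i j
  rw [h, hc1]
  simp [Matrix.one_apply]

lemma card_center (hF : Nat.card F = 64) : Nat.card (center (SpecialLinearGroup (Fin 3) F)) = 3 := by
  have : Fintype F := Fintype.ofFinite F
  rw [Nat.card_congr (SpecialLinearGroup.center_equiv_rootsOfUnity (n := Fin 3) (R := F)).toEquiv]
  simp only [Fintype.card_fin]
  obtain ⟨g, hg⟩ := IsCyclic.exists_generator (α := Fˣ)
  have h1 : orderOf g = 63 := by
    rw [orderOf_eq_card_of_forall_mem_zpowers hg, Nat.card_units, hF]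
  have h2 : orderOf (g ^ 21) = 3 := by
    rw [orderOf_pow, h1]
    decide
  have h3 : IsPrimitiveRoot (g ^ 21) 3 := by
    rw [← h2]
    exact IsPrimitiveRoot.orderOf _
  have h4 : IsPrimitiveRoot ((g ^ 21 : Fˣ) : F) 3 := IsPrimitiveRoot.coe_units_iff.2 h3
  exact h4.card_rootsOfUnity

end field

end Pool.Agent.Helper554.Form
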