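import Mathlib
import Pool.Agent.Helper554.Form.B3
set_option autoImplicit false
namespace Pool.Agent.Helper554.Form

open Subgroup Matrix SemidirectProduct
open scoped commutatorElement

abbrev SL3 (F : Type) [Field F] := Matrix.SpecialLinearGroup (Fin 3) F

section grp

variable (F : Type) [Field F] [Finite F] [CharP F 2]

/-- `SL(3, F)` extended by the automorphism `x ↦ x ^ 4` -/
abbrev GG := SL3 F ⋊[(zpowers (sg F)).subtype] (zpowers (sg F))

/-- the centre of `SL(3, F)` inside the extension -/
noncomputable def ZZ : Subgroup (GG F) := (center (SL3 F)).map inl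

/-- `SL(3, F)` inside the extension -/
noncomputable def LL : Subgroup (GG F) := (inl : SL3 F →* GG F).range

instance : Finite (GG F) := Finite.of_equiv _ (SemidirectProduct.equivProd).symm

lemma LL_eq : LL F = (rightHom : GG F →* zpowers (sg F)).ker := range_inl_eq_ker_rightHom

instance LLn : (LL F).Normal := by
  rw [LL_eq]
  infer_instance

variable {F}

lemma zp_center (s : zpowers (sg F)) {A : SL3 F} (hA : A ∈ center (SL3 F)) : s.1 A = A := by
  obtain ⟨s, hs⟩ := s
  obtain ⟨k, rfl⟩ := mem_zpowers_iff.1 hs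
  show ((sg F) ^ k) A = A
  have h1 : sg F ∈ MulAction.stabilizer (MulAut (SL3 F)) A := sg_center hA
  exact zpow_mem h1 k

lemma zp_fr (s : zpowers (sg F)) (A : SL3 F) : fr F (s.1 A) = s.1 (fr F A) := by
  obtain ⟨s, hs⟩ := s
  obtain ⟨k, rfl⟩ := mem_zpowers_iff.1 hs
  have h1 : Commute (fr F) (sg F ^ k) := by
    apply Commute.zpow_right
    exact (Commute.refl _).pow_right 2
  exact congrArg (fun f : MulAut (SL3 F) => f A) h1.eq

lemma ZZ_center : ZZ F ≤ center (GG F) := by
  rintro _ ⟨z, hz, rfl⟩
  rw [mem_center_iff]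
  intro g
  apply SemidirectProduct.ext
  · show g.left * g.right.1 z = z * (1 : MulAut _) g.left
    rw [zp_center g.right hz]
    exact mem_center_iff.1 hz g.left
  · show g.right * 1 = 1 * g.right
    rw [mul_one, one_mul]

instance ZZn : (ZZ F).Normal := by
  constructor
  intro n hn g
  have h1 := (mem_center_iff.1 (ZZ_center hn)) g
  rw [h1]
  simpa using hn

lemma ZZ_le : ZZ F ≤ LL F := by
  rintro _ ⟨z, _, rfl⟩
  exact ⟨z, rfl⟩

lemma card_ZZ (hF : Nat.card F = 64) : Nat.card (ZZ F) = 3 := by
  rw [ZZ, Subgroup.card_map_of_injective inl_injective]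
  exact card_center hF

lemma SL3_comm : ⁅(⊤ : Subgroup (SL3 F)), (⊤ : Subgroup (SL3 F))⁆ = ⊤ := SL3_perfect F

lemma LL_perf : ⁅LL F, LL F⁆ = LL F := by
  rw [LL, MonoidHom.range_eq_map, ← Subgroup.map_commutator, SL3_comm]

lemma not_comm : ∃ A B : SL3 F, A * B ≠ B * A := by
  refine ⟨⟨!![1, 1, 0; 0, 1, 0; 0, 0, 1], by simp [Matrix.det_fin_three]⟩,
    ⟨!![1, 0, 0; 1, 1, 0; 0, 0, 1], by simp [Matrix.det_fin_three]⟩, ?_⟩
  intro h
  have h1 : (!![1, 1, 0; 0, 1, 0; 0, 0, 1] * !![1, 0, 0; 1, 1, 0; 0, 0, 1] :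
      Matrix (Fin 3) (Fin 3) F) = !![1, 0, 0; 1, 1, 0; 0, 0, 1] * !![1, 1, 0; 0, 1, 0; 0, 0, 1] :=
    congrArg Subtype.val h
  have h2 := congrFun (congrFun h1 1) 1
  simp [Matrix.mul_apply, Fin.sum_univ_three] at h2

lemma LL_not_le : ¬ LL F ≤ ZZ F := by
  intro h
  obtain ⟨A, B, hAB⟩ := not_comm (F := F)
  apply hAB
  have h1 : (inl A : GG F) ∈ center (GG F) := ZZ_center (h ⟨A, rfl⟩)
  have h2 := mem_center_iff.1 h1 (inl B)
  rw [← map_mul, ← map_mul] at h2
  exact (inl_injective h2).symm

lemma card_quot (hF : Nat.card F = 64) : Nat.card (GG F ⧸ LL F) = 3 := by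
  have h1 : Nat.card (GG F ⧸ LL F) = (LL F).index := rfl
  rw [h1, LL_eq, Subgroup.index_ker, MonoidHom.range_eq_top.2 rightHom_surjective, card_top,
    Nat.card_zpowers, orderOf_sg hF]

/-- only scalar elements centralise `SL(3, F)` -/
lemma centralizer_LL (hF : Nat.card F = 64) (g : GG F) (hg : ∀ l : SL3 F, g * inl l = inl l * g) :
    g ∈ ZZ F := by
  have hl : ∀ l : SL3 F, g.left * g.right.1 l = l * g.left := by
    intro l
    have := congrArg SemidirectProduct.left (hg l)
    simpa using this
  have hr : g.right = 1 := by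
    by_contra hne
    have : Fact (Nat.Prime 3) := ⟨by norm_num⟩
    have hc : Nat.card (zpowers (sg F)) = 3 := by rw [Nat.card_zpowers, orderOf_sg hF]
    have hmem : (⟨sg F, mem_zpowers _⟩ : zpowers (sg F)) ∈ zpowers g.right :=
      mem_zpowers_of_prime_card hc hne
    obtain ⟨k, hk⟩ := mem_zpowers_iff.1 hmem
    -- traces are preserved
    let T : Subgroup (MulAut (SL3 F)) :=
      { carrier := {s | ∀ l : SL3 F, trace (s l : Matrix (Fin 3) (Fin 3) F) =
          trace (l : Matrix (Fin 3) (Fin 3) F)}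
        one_mem' := fun l => rfl
        mul_mem' := by
          intro s t hs ht l
          rw [MulAut.mul_apply, hs, ht]
        inv_mem' := by
          intro s hs l
          rw [← hs (s⁻¹ l), ← MulAut.mul_apply, mul_inv_cancel, MulAut.one_apply] }
    have h1 : g.right.1 ∈ T := by
      intro l
      have h2 : g.right.1 l = g.left⁻¹ * l * g.left := by
        rw [mul_assoc, ← hl l]
        group
      rw [h2, Matrix.SpecialLinearGroup.coe_mul, Matrix.trace_mul_comm,
        ← Matrix.SpecialLinearGroup.coe_mul, mul_inv_cancel_left]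
    have h2 : sg F ∈ T := by
      have h3 : (g.right.1) ^ k = sg F := congrArg Subtype.val hk
      rw [← h3]
      exact T.zpow_mem h1 k
    obtain ⟨t, ht⟩ := exists_not_cube hF
    apply ht
    have h4 := h2 (trm t)
    rw [sg_trace, trm_trace] at h4
    exact h4
  refine ⟨g.left, ?_, ?_⟩
  · rw [SetLike.mem_coe, mem_center_iff]
    intro l
    have := hl l
    rw [hr] at this
    exact this.symm
  · apply SemidirectProduct.ext
    · rfl
    · exact hr.symm

lemma SL3_hom_trivial {A : Type} [Group A] (f : SL3 F →* A) (hA : ∀ l l', f l * f l' = f l' * f l) :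
    ∀ l, f l = 1 := by
  intro l
  have h1 : (⊤ : Subgroup (SL3 F)) ≤ f.ker := by
    rw [← SL3_comm, commutator_le]
    intro x _ y _
    rw [MonoidHom.mem_ker, map_commutatorElement, commutatorElement_eq_one_iff_mul_comm]
    exact hA x y
  exact h1 (mem_top l)

lemma GG_norm (hF : Nat.card F = 64) (N : Subgroup (GG F)) (hN : N.Normal) :
    LL F ≤ N ∨ N ≤ ZZ F := by
  have hn : (N.comap (inl : SL3 F →* GG F)).Normal := inferInstance
  rcases SL3_normal F (N.comap (inl : SL3 F →* GG F)) with h1 | h1
  · right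
    intro n hnN
    apply centralizer_LL hF
    intro l
    -- the commutator map `l ↦ ⁅n, l⁆` is a homomorphism into the centre
    have hcen : ∀ l : SL3 F, ⁅n, (inl l : GG F)⁆ ∈ ZZ F := by
      intro l
      have h2 : ⁅n, (inl l : GG F)⁆ ∈ N := by
        rw [commutatorElement_def]
        have : n * inl l * n⁻¹ * (inl l)⁻¹ = n * (inl l * n⁻¹ * (inl l)⁻¹) := by group
        rw [this]
        exact N.mul_mem hnN (hN.conj_mem _ (N.inv_mem hnN) _)
      have h3 : ⁅n, (inl l : GG F)⁆ ∈ LL F := by
        rw [LL_eq, MonoidHom.mem_ker, map_commutatorElement, rightHom_inl,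
          commutatorElement_one_right]
      obtain ⟨x, hx⟩ := h3
      have h4 : x ∈ N.comap (inl : SL3 F →* GG F) := by
        rw [mem_comap, hx]
        exact h2
      exact ⟨x, h1 h4, hx⟩
    let f : SL3 F →* GG F :=
      { toFun := fun l => ⁅n, (inl l : GG F)⁆
        map_one' := by simp
        map_mul' := by
          intro x y
          have hy := (mem_center_iff.1 (ZZ_center (hcen y)))
          rw [map_mul]
          have e1 : ⁅n, (inl x * inl y : GG F)⁆ = ⁅n, (inl x : GG F)⁆ *
              (inl x * ⁅n, (inl y : GG F)⁆ * (inl x)⁻¹) := by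
            simp only [commutatorElement_def]
            group
          rw [e1, hy (inl x)]
          group }
    have hf := SL3_hom_trivial f (by
      intro x y
      exact (mem_center_iff.1 (ZZ_center (hcen y)) (f x)))
    exact commutatorElement_eq_one_iff_mul_comm.1 (hf l)
  · left
    rintro _ ⟨l, rfl⟩
    have : l ∈ N.comap (inl : SL3 F →* GG F) := by rw [h1]; trivial
    exact this

end grp

end Pool.Agent.Helper554.Form
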