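import Mathlib
import Pool.Agent.Helper554.Form.B4
set_option autoImplicit false
namespace Pool.Agent.Helper554.Form

open Subgroup Matrix SemidirectProduct
open scoped commutatorElement

section grp

variable {F : Type} [Field F] [Finite F] [CharP F 2]

/-- `SL(3, F)` is isomorphic to its image -/
noncomputable def eL : SL3 F ≃* LL F := MonoidHom.ofInjective inl_injective

lemma eL_coe (l : SL3 F) : ((eL l : LL F) : GG F) = inl l := rfl

lemma GG_lift (hF : Nat.card F = 64) (R : Subgroup (GG F × GG F)) (hR : ⁅R, R⁆ = R)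
    (h1 : R.map (MonoidHom.fst (GG F) (GG F)) = LL F)
    (hZ : ∀ r ∈ R, r.1 ∈ ZZ F ↔ r.2 ∈ ZZ F) : ∀ r ∈ R, r.1 = 1 → r.2 = 1 := by
  intro r0 hr0 hr1
  by_contra hr2
  have hcomm : commutator R = ⊤ := by
    rw [← Subgroup.isPerfect_iff] at hR
    exact hR.commutator_eq_top
  let π1 : R →* LL F := ((MonoidHom.fst (GG F) (GG F)).comp R.subtype).codRestrict (LL F) (by
    intro x
    rw [← h1]
    exact ⟨x, x.2, rfl⟩)
  let π : R →* SL3 F := (eL (F := F)).symm.toMonoidHom.comp π1
  have hπ : Function.Surjective π := by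
    intro l
    have hl : (inl l : GG F) ∈ R.map (MonoidHom.fst (GG F) (GG F)) := by
      rw [h1]
      exact ⟨l, rfl⟩
    obtain ⟨x, hx, he⟩ := hl
    refine ⟨⟨x, hx⟩, ?_⟩
    show (eL (F := F)).symm (π1 ⟨x, hx⟩) = l
    rw [MulEquiv.symm_apply_eq]
    apply Subtype.ext
    exact he
  have hker : ∀ x : R, x ∈ π.ker ↔ x.1.1 = 1 := by
    intro x
    rw [MonoidHom.mem_ker]
    show (eL (F := F)).symm (π1 x) = 1 ↔ _
    rw [MulEquiv.symm_apply_eq, map_one]
    exact Subtype.ext_iff
  have hkerZ : ∀ x ∈ π.ker, x.1.2 ∈ ZZ F := by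
    intro x hx
    rw [← hZ x.1 x.2, (hker x).1 hx]
    exact one_mem _
  have hcen : π.ker ≤ center R := by
    intro x hx
    rw [mem_center_iff]
    intro y
    apply Subtype.ext
    apply Prod.ext
    · show y.1.1 * x.1.1 = x.1.1 * y.1.1
      rw [(hker x).1 hx, mul_one, one_mul]
    · show y.1.2 * x.1.2 = x.1.2 * y.1.2
      exact mem_center_iff.1 (ZZ_center (hkerZ x hx)) y.1.2
  have hcard : Nat.card π.ker = 3 := by
    let f : π.ker →* ZZ F := ((MonoidHom.snd (GG F) (GG F)).comp (R.subtype.comp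
      π.ker.subtype)).codRestrict (ZZ F) (fun x => hkerZ x.1 x.2)
    have hf : Function.Injective f := by
      rw [injective_iff_map_eq_one]
      intro x hx
      apply Subtype.ext
      apply Subtype.ext
      apply Prod.ext
      · exact (hker x.1).1 x.2
      · exact congrArg Subtype.val hx
    have hdvd : Nat.card π.ker ∣ 3 := by
      have h := Subgroup.card_dvd_of_injective f hf
      rwa [card_ZZ hF] at h
    rcases (Nat.dvd_prime (by norm_num : Nat.Prime 3)).1 hdvd with h3 | h3
    · exfalso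
      have hbot : π.ker = ⊥ := Subgroup.eq_bot_of_card_eq _ h3
      have hx : (⟨r0, hr0⟩ : R) ∈ π.ker := (hker _).2 hr1
      rw [hbot, mem_bot] at hx
      apply hr2
      have := congrArg (fun y : R => y.1.2) hx
      exact this
    · exact h3
  exact no_perfect_ext F hF R hcomm π hπ hcen hcard

lemma GG_cyc (hF : Nat.card F = 64) : IsCyclic (GG F ⧸ LL F) := by
  have : Fact (Nat.Prime 3) := ⟨by norm_num⟩
  exact isCyclic_of_prime_card (card_quot hF)

lemma GG_data (hF : Nat.card F = 64) : GData (GG F) (ZZ F) (LL F) where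
  ZL := ZZ_le
  Zc := ZZ_center
  Zp := by rw [card_ZZ hF]; norm_num
  norm := GG_norm hF
  perf := LL_perf
  LZ := LL_not_le
  cyc := GG_cyc hF
  lift := fun R hR h1 _ hZ => GG_lift hF R hR h1 hZ

/-- the automorphism induced by the Frobenius map -/
noncomputable def aut : GG F ≃* GG F where
  toFun x := ⟨fr F x.left, x.right⟩
  invFun x := ⟨(fr F).symm x.left, x.right⟩
  left_inv x := by
    apply SemidirectProduct.ext
    · exact (fr F).symm_apply_apply x.left
    · rfl
  right_inv x := by
    apply SemidirectProduct.ext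
    · exact (fr F).apply_symm_apply x.left
    · rfl
  map_mul' x y := by
    apply SemidirectProduct.ext
    · show fr F (x.left * x.right.1 y.left) = fr F x.left * x.right.1 (fr F y.left)
      rw [map_mul, zp_fr]
    · rfl

lemma aut_L (g : GG F) : g⁻¹ * aut g ∈ LL F := by
  rw [LL_eq, MonoidHom.mem_ker]
  show g.right⁻¹ * g.right = 1
  simp

lemma aut_Z (z : GG F) (hz : z ∈ ZZ F) (h : aut z = z) : z = 1 := by
  obtain ⟨A, hA, rfl⟩ := hz
  have h1 : fr F A = A := congrArg SemidirectProduct.left h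
  rw [fr_center hA h1, map_one]

theorem GG_finite (hF : Nat.card F = 64) :
    Set.Finite {K : ∀ (H : Type) [Group H], Prop | IsForm (GG F) K} :=
  finite_forms (GG_data hF) aut aut_L aut_Z

/-- normal subgroups of `L` -/
lemma LL_normal (N : Subgroup (LL F)) (hN : N.Normal) : N ≤ (ZZ F).subgroupOf (LL F) ∨ N = ⊤ := by
  have hn : (N.comap (eL (F := F)).toMonoidHom).Normal := inferInstance
  rcases SL3_normal F (N.comap (eL (F := F)).toMonoidHom) with h1 | h1
  · left
    intro x hx
    obtain ⟨A, rfl⟩ := (eL (F := F)).surjective x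
    rw [mem_subgroupOf, eL_coe]
    exact ⟨A, h1 hx, rfl⟩
  · right
    rw [eq_top_iff]
    intro x _
    obtain ⟨A, rfl⟩ := (eL (F := F)).surjective x
    have : A ∈ N.comap (eL (F := F)).toMonoidHom := by rw [h1]; trivial
    exact this

lemma simple_quot [((ZZ F).subgroupOf (LL F)).Normal] :
    IsSimpleGroup (LL F ⧸ (ZZ F).subgroupOf (LL F)) := by
  have hne : (ZZ F).subgroupOf (LL F) ≠ ⊤ := by
    intro h
    rw [subgroupOf_eq_top] at h
    exact LL_not_le h
  have : Nontrivial (LL F ⧸ (ZZ F).subgroupOf (LL F)) := by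
    rw [QuotientGroup.nontrivial_iff]
    exact hne
  constructor
  intro N hN
  have hn : (N.comap (QuotientGroup.mk' ((ZZ F).subgroupOf (LL F)))).Normal := inferInstance
  rcases LL_normal _ hn with h1 | h1
  · left
    rw [eq_bot_iff]
    intro x hx
    obtain ⟨x, rfl⟩ := QuotientGroup.mk_surjective x
    rw [mem_bot, QuotientGroup.eq_one_iff]
    exact h1 hx
  · right
    rw [eq_top_iff]
    intro x _
    obtain ⟨x, rfl⟩ := QuotientGroup.mk_surjective x
    have : x ∈ N.comap (QuotientGroup.mk' ((ZZ F).subgroupOf (LL F))) := by rw [h1]; trivial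
    exact this

lemma nonab_quot [((ZZ F).subgroupOf (LL F)).Normal] :
    ¬ ∀ a b : LL F ⧸ (ZZ F).subgroupOf (LL F), a * b = b * a := by
  intro h
  apply LL_not_le (F := F)
  let f : SL3 F →* LL F ⧸ (ZZ F).subgroupOf (LL F) :=
    (QuotientGroup.mk' ((ZZ F).subgroupOf (LL F))).comp (eL (F := F)).toMonoidHom
  have hf := SL3_hom_trivial f (fun l l' => h _ _)
  rintro _ ⟨A, rfl⟩
  have h1 : (eL A : LL F) ∈ (ZZ F).subgroupOf (LL F) := by
    rw [← QuotientGroup.eq_one_iff]
    exact hf A
  exact h1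

lemma sub_ZZ (hF : Nat.card F = 64) (A : Subgroup (GG F)) (hA : A ≤ ZZ F) : A = ⊥ ∨ A = ZZ F := by
  have h1 : Nat.card A ∣ 3 := by
    have h := Subgroup.card_dvd_of_le hA
    rwa [card_ZZ hF] at h
  rcases (Nat.dvd_prime (by norm_num : Nat.Prime 3)).1 h1 with h3 | h3
  · left
    exact Subgroup.eq_bot_of_card_eq _ h3
  · right
    apply Subgroup.eq_of_le_of_card_ge hA
    rw [h3, card_ZZ hF]

lemma unique_series (hF : Nat.card F = 64) (A B : Subgroup (GG F)) [hAn : (A.subgroupOf B).Normal]
    [hBn : B.Normal] (hAB : A ≤ B) (hA : IsSimpleGroup A)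
    (hBA : IsSimpleGroup (B ⧸ A.subgroupOf B)) (hGB : IsSimpleGroup (GG F ⧸ B)) :
    A = ZZ F ∧ B = LL F := by
  have hAbot : A ≠ ⊥ := by
    intro h
    have h1 : Nontrivial A := hA.toNontrivial
    rw [h] at h1
    exact not_nontrivial _ h1
  have hAneB : ¬ B ≤ A := by
    intro h
    have h1 : A.subgroupOf B = ⊤ := by rwa [subgroupOf_eq_top]
    have h2 : Nontrivial (B ⧸ A.subgroupOf B) := hBA.toNontrivial
    rw [QuotientGroup.nontrivial_iff] at h2
    exact h2 h1
  have hBtop : B ≠ ⊤ := by
    have h2 : Nontrivial (GG F ⧸ B) := hGB.toNontrivial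
    rwa [QuotientGroup.nontrivial_iff] at h2
  rcases GG_norm hF B hBn with h1 | h1
  · -- `L ≤ B`
    have hBL : B = LL F := by
      apply le_antisymm _ h1
      have h3 : (LL F).relIndex B * B.index = 3 := by
        rw [Subgroup.relIndex_mul_index h1]
        exact card_quot hF
      have h4 : B.index ≠ 1 := by
        rwa [Ne, Subgroup.index_eq_one]
      have h5 : (LL F).relIndex B ∣ 3 := Dvd.intro _ h3
      rcases (Nat.dvd_prime (by norm_num : Nat.Prime 3)).1 h5 with h6 | h6
      · exact Subgroup.relIndex_eq_one.1 h6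
      · exfalso
        rw [h6] at h3
        omega
    subst hBL
    refine ⟨?_, rfl⟩
    rcases LL_normal _ hAn with h2 | h2
    · have h3 : A ≤ ZZ F := by
        intro x hx
        exact h2 (show (⟨x, hAB hx⟩ : LL F) ∈ A.subgroupOf (LL F) from hx)
      rcases sub_ZZ hF A h3 with h4 | h4
      · exact absurd h4 hAbot
      · exact h4
    · exfalso
      rw [subgroupOf_eq_top] at h2
      exact hAneB h2
  · exfalso
    rcases sub_ZZ hF A (hAB.trans h1) with h2 | h2
    · exact hAbot h2
    · apply hAneB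
      rw [h2]
      exact h1

end grp

end Pool.Agent.Helper554.Form
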